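import Mathlib

/-!
# Transitive ultrahomogeneous structures without algebraicity on the rational numbers
-/

set_option autoImplicit false

namespace Pool.Agent.Lib.PRX

open FirstOrder FirstOrder.Language

/-- The `L`-structure on `ℚ` is ultrahomogeneous, the order of `ℚ` is one of its relations, its automorphism group is
transitive, and it has no algebraicity. -/
structure Nice (L : FirstOrder.Language.{0,0}) [L.Structure ℚ] : Prop where
  hom : L.IsUltrahomogeneous ℚ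
  ord : ∃ R : L.Relations 2, ∀ x y : ℚ, Structure.RelMap R ![x, y] ↔ x < y
  trans : ∀ x y : ℚ, ∃ σ : ℚ ≃[L] ℚ, σ x = y
  noalg : ∀ (F : Finset ℚ) (x : ℚ), x ∉ F → {y | ∃ σ : ℚ ≃[L] ℚ, (∀ z ∈ F, σ z = z) ∧ σ x = y}.Infinite

/-- For a colouring `χ` of the finite subsets of `ℚ`, only the colours of the subsets with at most `r` elements
being used: the automorphisms of `(ℚ, <, χ)`. -/
def AutC (r : ℕ) {m : ℕ} (χ : Finset ℚ → Fin m) : Set (ℚ ≃o ℚ) :=
  {σ | ∀ F : Finset ℚ, F.card ≤ r → χ (F.image σ) = χ F}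

/-- `(ℚ, <, χ)` is ultrahomogeneous and transitive and has no algebraicity. -/
structure NiceCol (r : ℕ) {m : ℕ} (χ : Finset ℚ → Fin m) : Prop where
  hom : ∀ (F : Finset ℚ) (g : ℚ → ℚ), StrictMonoOn g F → (∀ S ⊆ F, S.card ≤ r → χ (S.image g) = χ S) →
    ∃ σ ∈ AutC r χ, ∀ x ∈ F, σ x = g x
  trans : ∀ x y : ℚ, ∃ σ ∈ AutC r χ, σ x = y
  noalg : ∀ (F : Finset ℚ) (x : ℚ), x ∉ F → {y | ∃ σ ∈ AutC r χ, (∀ z ∈ F, σ z = z) ∧ σ x = y}.Infinite

end Pool.Agent.Lib.PRX
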