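import Pool.Agent.Lib.PRX.Rat
import Pool.Agent.Lib.PRX.NiceDef

/-!
# Colourings of the small subsets of the rational numbers
-/

set_option autoImplicit false

namespace Pool.Agent.Lib.PRX

open FirstOrder FirstOrder.Language

/-! ## Positions -/

/-- the position of `y` in `S` -/
def pos (S : Finset ℚ) (y : ℚ) : ℕ := (S.filter (· < y)).card

theorem pos_lt {S : Finset ℚ} {y : ℚ} (hy : y ∈ S) : pos S y < S.card := by
  refine Finset.card_lt_card ?_
  rw [Finset.filter_ssubset]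
  exact ⟨y, hy, lt_irrefl y⟩

theorem pos_inj {S : Finset ℚ} {y z : ℚ} (hy : y ∈ S) (hz : z ∈ S) (h : pos S y = pos S z) : y = z := by
  have key : ∀ {y z : ℚ}, y ∈ S → y < z → pos S y < pos S z := by
    intro y z hy hyz
    refine Finset.card_lt_card ?_
    rw [Finset.ssubset_iff_of_subset]
    · exact ⟨y, Finset.mem_filter.2 ⟨hy, hyz⟩, fun h => lt_irrefl y (Finset.mem_filter.1 h).2⟩
    · intro w hw
      rw [Finset.mem_filter] at hw ⊢
      exact ⟨hw.1, hw.2.trans hyz⟩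
  rcases lt_trichotomy y z with h1 | h1 | h1
  · exact absurd h (key hy h1).ne
  · exact h1
  · exact absurd h (key hz h1).ne'

theorem pos_image {S : Finset ℚ} {g : ℚ → ℚ} (hg : StrictMonoOn g S) {y : ℚ} (hy : y ∈ S) :
    pos (S.image g) (g y) = pos S y := by
  have h1 : (S.image g).filter (· < g y) = (S.filter (· < y)).image g := by
    ext w
    simp only [Finset.mem_filter, Finset.mem_image]
    constructor
    · rintro ⟨⟨z, hz, rfl⟩, h⟩
      exact ⟨z, ⟨hz, (hg.lt_iff_lt hz hy).1 h⟩, rfl⟩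
    · rintro ⟨z, ⟨hz, h⟩, rfl⟩
      exact ⟨⟨z, hz, rfl⟩, hg hz hy h⟩
  rw [pos, h1, Finset.card_image_of_injOn]
  · rfl
  · intro a ha b hb hab
    exact hg.injOn (Finset.mem_filter.1 ha).1 (Finset.mem_filter.1 hb).1 hab

/-! ## From a language to a colouring -/

section Forward

variable {L : FirstOrder.Language.{0,0}} [L.Structure ℚ]

/-- the type of a small set -/
def typ (L : FirstOrder.Language.{0,0}) [L.Structure ℚ] (r : ℕ) (S : Finset ℚ) :
    Set (Σ R : (Σ n, L.Relations n), (Fin R.1 → Fin r)) :=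
  {p | ∃ y : Fin p.1.1 → ℚ, (∀ i, y i ∈ S ∧ pos S (y i) = p.2 i) ∧ Structure.RelMap p.1.2 y}

theorem rel_iff_typ {r : ℕ} {S : Finset ℚ} {n : ℕ} (Q : L.Relations n) (x : Fin n → ℚ) (hx : ∀ i, x i ∈ S)
    (u : Fin n → Fin r) (hu : ∀ i, pos S (x i) = u i) :
    Structure.RelMap Q x ↔ (⟨⟨n, Q⟩, u⟩ : Σ R : (Σ n, L.Relations n), (Fin R.1 → Fin r)) ∈ typ L r S := by
  constructor
  · intro h
    exact ⟨x, fun i => ⟨hx i, hu i⟩, h⟩
  · rintro ⟨y, hy, h⟩
    have h1 : x = y := by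
      funext i
      exact pos_inj (hx i) (hy i).1 ((hu i).trans (hy i).2.symm)
    rw [h1]
    exact h

/-- equal types of all small sets mean equal relations -/
theorem rel_of_typ {r : ℕ} {n : ℕ} (hn : n ≤ r) (Q : L.Relations n) (x : Fin n → ℚ) (g : ℚ → ℚ)
    (hg : StrictMonoOn g (Finset.univ.image x : Finset ℚ))
    (h : typ L r ((Finset.univ.image x).image g) = typ L r (Finset.univ.image x)) :
    Structure.RelMap Q (fun i => g (x i)) ↔ Structure.RelMap Q x := by
  classical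
  set S := Finset.univ.image x with hS
  have hx : ∀ i, x i ∈ S := fun i => Finset.mem_image_of_mem _ (Finset.mem_univ i)
  have hcard : S.card ≤ r := (Finset.card_image_le.trans (by simp)).trans hn
  let u : Fin n → Fin r := fun i => ⟨pos S (x i), (pos_lt (hx i)).trans_le hcard⟩
  rw [rel_iff_typ Q x hx u (fun _ => rfl),
    rel_iff_typ (S := S.image g) Q (fun i => g (x i)) (fun i => Finset.mem_image_of_mem _ (hx i)) u
      (fun i => pos_image hg (hx i)), h]

theorem typ_equiv (τ : ℚ ≃[L] ℚ) (hτ : StrictMono τ) (r : ℕ) (S : Finset ℚ) : typ L r (S.image τ) = typ L r S := by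
  ext ⟨⟨n, Q⟩, u⟩
  constructor
  · rintro ⟨y, hy, h⟩
    have h1 : ∀ i, ∃ x ∈ S, τ x = y i := fun i => Finset.mem_image.1 (hy i).1
    choose x hx hxy using h1
    refine ⟨x, fun i => ⟨hx i, ?_⟩, ?_⟩
    · rw [← pos_image (hτ.strictMonoOn _) (hx i), hxy]
      exact (hy i).2
    · have h2 := τ.map_rel Q x
      have h3 : (τ ∘ x) = y := funext hxy
      rw [h3] at h2
      exact h2.1 h
  · rintro ⟨x, hx, h⟩
    refine ⟨τ ∘ x, fun i => ⟨Finset.mem_image_of_mem _ (hx i).1, ?_⟩, (τ.map_rel Q x).2 h⟩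
    exact (pos_image (hτ.strictMonoOn _) (hx i).1).trans (hx i).2

theorem exists_col (hrel : ∀ n, IsEmpty (L.Functions n)) (hfin : Finite (Σ n, L.Relations n)) {r : ℕ}
    (har : ∀ n, ¬ n ≤ r → IsEmpty (L.Relations n)) (hN : Nice L) :
    ∃ (m : ℕ) (χ : Finset ℚ → Fin m), NiceCol r χ ∧ ∀ σ ∈ AutC r χ, ∃ τ : ℚ ≃[L] ℚ, ∀ x, τ x = σ x := by
  classical
  obtain ⟨m, ⟨e⟩⟩ := Finite.exists_equiv_fin (Set (Σ R : (Σ n, L.Relations n), (Fin R.1 → Fin r)))
  let χ : Finset ℚ → Fin m := fun S => e (typ L r S)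
  have hχ : ∀ S S', χ S = χ S' ↔ typ L r S = typ L r S' := fun S S' => e.injective.eq_iff
  have hle : ∀ {n : ℕ} (_ : L.Relations n), n ≤ r := fun {n} Q => by
    by_contra h
    exact (har n h).false Q
  obtain ⟨O, hO⟩ := hN.ord
  have hlt : ∀ (τ : ℚ ≃[L] ℚ) (x y : ℚ), τ x < τ y ↔ x < y := by
    intro τ x y
    rw [← hO, ← hO]
    have h1 := τ.map_rel O ![x, y]
    have h2 : (τ ∘ ![x, y]) = ![τ x, τ y] := by
      funext i
      fin_cases i <;> rfl
    rw [h2] at h1
    exact h1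
  have haut : ∀ τ : ℚ ≃[L] ℚ, ∃ σ ∈ AutC r χ, ∀ x, σ x = τ x := by
    intro τ
    refine ⟨{ τ.toEquiv with map_rel_iff' := ?_ }, ?_, fun x => rfl⟩
    · intro x y
      change τ x ≤ τ y ↔ x ≤ y
      rw [← not_lt, ← not_lt, hlt]
    · intro S _
      rw [hχ]
      exact typ_equiv τ (fun x y h => (hlt τ x y).2 h) r S
  refine ⟨m, χ, ⟨?_, ?_, ?_⟩, ?_⟩
  · intro F g hg hF
    obtain ⟨τ, hτ⟩ := ext_of_data hrel hN.hom (ι := F) (fun i => (i : ℚ)) (fun i => g i)
      (fun i j => (hg.injOn.eq_iff i.2 j.2).symm)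
      (by
        intro n Q v
        have hsub : (Finset.univ.image fun i => ((v i : F) : ℚ)) ⊆ F := by
          intro y hy
          rw [Finset.mem_image] at hy
          obtain ⟨i, -, rfl⟩ := hy
          exact (v i).2
        have h1 := hF _ hsub ((Finset.card_image_le.trans (by simp)).trans (hle Q))
        rw [hχ] at h1
        exact (rel_of_typ (hle Q) Q (fun i => ((v i : F) : ℚ)) g (hg.mono (by exact_mod_cast hsub)) h1).symm)
    obtain ⟨σ, h1, h2⟩ := haut τ
    exact ⟨σ, h1, fun x hx => by rw [h2]; exact hτ ⟨x, hx⟩⟩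
  · intro x y
    obtain ⟨τ, hτ⟩ := hN.trans x y
    obtain ⟨σ, h1, h2⟩ := haut τ
    exact ⟨σ, h1, by rw [h2, hτ]⟩
  · intro F x hx
    refine (hN.noalg F x hx).mono ?_
    rintro y ⟨τ, h1, h2⟩
    obtain ⟨σ, h3, h4⟩ := haut τ
    exact ⟨σ, h3, fun z hz => by rw [h4, h1 z hz], by rw [h4, h2]⟩
  · intro σ hσ
    refine ⟨{ σ.toEquiv with map_fun' := fun {n} f => (hrel n).elim f, map_rel' := ?_ }, fun x => rfl⟩
    intro n Q x
    refine rel_of_typ (hle Q) Q x σ (σ.strictMono.strictMonoOn _) ?_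
    rw [← hχ]
    exact hσ _ ((Finset.card_image_le.trans (by simp)).trans (hle Q))

end Forward

/-! ## From a colouring to a language -/

/-- the language with the order and the colours of the increasing tuples of length at most `r` -/
def LK (r m : ℕ) : FirstOrder.Language.{0,0} := ⟨fun _ => Empty, fun s => {_u : Unit // s = 2} ⊕ {_i : Fin m // s ≤ r}⟩

@[reducible] def strK (r : ℕ) {m : ℕ} (χ : Finset ℚ → Fin m) : (LK r m).Structure ℚ where
  funMap f := Empty.elim f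
  RelMap {s} Q x := Sum.elim (fun t : {_u : Unit // s = 2} =>
      x ⟨0, by have := t.2; omega⟩ < x ⟨1, by have := t.2; omega⟩)
    (fun t : {_i : Fin m // s ≤ r} => StrictMono x ∧ χ (Finset.univ.image x) = t.1) Q

theorem LK_rel {r m : ℕ} : ∀ s, IsEmpty ((LK r m).Functions s) := fun _ => inferInstanceAs (IsEmpty Empty)

theorem LK_fin {r m : ℕ} : Finite (Σ s, (LK r m).Relations s) := by
  let f : (Σ s, (LK r m).Relations s) → Option (Fin (r + 1) × Fin m) := fun x => match x with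
    | ⟨_, Sum.inl _⟩ => none
    | ⟨s, Sum.inr t⟩ => some (⟨s, Nat.lt_succ_of_le t.2⟩, t.1)
  refine Finite.of_injective f ?_
  rintro ⟨s, (⟨_, rfl⟩ | t)⟩ ⟨s', (⟨_, rfl⟩ | t')⟩ h
  · rfl
  · simp [f] at h
  · simp [f] at h
  · simp only [f, Option.some.injEq, Prod.mk.injEq, Fin.mk.injEq] at h
    obtain ⟨rfl, h⟩ := h
    rw [Subtype.ext h]

theorem LK_ar {r m : ℕ} (hr : 2 ≤ r) : ∀ s, ¬ s ≤ r → IsEmpty ((LK r m).Relations s) := by
  intro s hs
  refine ⟨fun Q => ?_⟩
  rcases Q with ⟨_, rfl⟩ | t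
  · exact hs hr
  · exact hs t.2

theorem toLK {r m : ℕ} {χ : Finset ℚ → Fin m} {σ : ℚ ≃o ℚ} (hσ : σ ∈ AutC r χ) : let _ := strK r χ;
    ∃ τ : ℚ ≃[LK r m] ℚ, ∀ x, τ x = σ x := by
  intro _
  refine ⟨{ σ.toEquiv with map_fun' := fun {n} f => Empty.elim f, map_rel' := ?_ }, fun x => rfl⟩
  intro s Q x
  match Q with
  | Sum.inl t => exact σ.lt_iff_lt
  | Sum.inr t =>
    change (StrictMono (σ ∘ x) ∧ χ (Finset.univ.image (σ ∘ x)) = t.1) ↔ (StrictMono x ∧ χ (Finset.univ.image x) = t.1)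
    have h1 : StrictMono (σ ∘ x) ↔ StrictMono x :=
      ⟨fun h a b hab => σ.lt_iff_lt.1 (h hab), fun h => σ.strictMono.comp h⟩
    have h2 : Finset.univ.image (σ ∘ x) = (Finset.univ.image x).image σ := by
      rw [Finset.image_image]
    rw [h1, h2, hσ _ ((Finset.card_image_le.trans (by simp)).trans t.2)]

theorem nice_LK {r m : ℕ} {χ : Finset ℚ → Fin m} (hχ : NiceCol r χ) : let _ := strK r χ; Nice (LK r m) := by
  classical
  intro _
  refine ⟨?_, ⟨Sum.inl ⟨(), rfl⟩, fun x y => Iff.rfl⟩, fun x y => ?_, fun F x hx => ?_⟩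
  · refine uh_of_ext LK_rel fun k a b hab x => ?_
    let g : ℚ → ℚ := fun q => if h : ∃ i, a i = q then b h.choose else q
    have hg : ∀ i, g (a i) = b i := by
      intro i
      have h : ∃ j, a j = a i := ⟨i, rfl⟩
      simp only [g, dif_pos h]
      exact (hab.inj _ _).1 h.choose_spec
    have hord : ∀ i j, a i < a j ↔ b i < b j := fun i j => hab.rel 2 (Sum.inl ⟨(), rfl⟩) ![i, j]
    have hmono : StrictMonoOn g (Finset.univ.image a : Finset ℚ) := by
      intro p hp q hq hpq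
      rw [Finset.mem_coe, Finset.mem_image] at hp hq
      obtain ⟨i, -, rfl⟩ := hp
      obtain ⟨j, -, rfl⟩ := hq
      rw [hg, hg]
      exact (hord i j).1 hpq
    obtain ⟨σ, hσ, h1⟩ := hχ.hom (Finset.univ.image a) g hmono (by
      intro S hS hcard
      -- enumerate `S`
      have h2 : ∀ j : Fin S.card, ∃ i, a i = S.orderEmbOfFin rfl j := by
        intro j
        have h3 := hS (S.orderEmbOfFin_mem rfl j)
        rw [Finset.mem_image] at h3
        obtain ⟨i, -, h3⟩ := h3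
        exact ⟨i, h3⟩
      choose v hv using h2
      have h4 : StrictMono (fun j => a (v j)) := by
        intro j j' hjj
        simp only [hv]
        exact (S.orderEmbOfFin rfl).strictMono hjj
      have h5 : Finset.univ.image (fun j => a (v j)) = S := by
        have h6 : (fun j => a (v j)) = S.orderEmbOfFin rfl := funext hv
        rw [h6]
        exact Finset.image_orderEmbOfFin_univ S rfl
      have h7 := hab.rel S.card (Sum.inr ⟨χ S, hcard⟩) v
      have h8 : StrictMono (fun j => b (v j)) ∧ χ (Finset.univ.image fun j => b (v j)) = χ S :=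
        h7.1 ⟨h4, by rw [h5]⟩
      have h9 : S.image g = Finset.univ.image fun j => b (v j) := by
        conv_lhs => rw [← h5]
        rw [Finset.image_image]
        congr 1
        funext j
        exact hg _
      rw [h9]
      exact h8.2)
    obtain ⟨τ, hτ⟩ := toLK hσ
    refine ⟨σ x, ?_⟩
    have h2 : (Fin.snoc (α := fun _ => ℚ) b (σ x) : Fin (k + 1) → ℚ) =
        τ ∘ (Fin.snoc (α := fun _ => ℚ) a x : Fin (k + 1) → ℚ) := by
      funext i
      refine Fin.lastCases ?_ (fun i => ?_) i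
      · simp [hτ]
      · simp [hτ, h1, hg]
    rw [h2]
    exact ⟨fun i j => τ.injective.eq_iff.symm, fun k Q v => (τ.map_rel Q _).symm⟩
  · obtain ⟨σ, hσ, h1⟩ := hχ.trans x y
    obtain ⟨τ, hτ⟩ := toLK hσ
    exact ⟨τ, by rw [hτ, h1]⟩
  · refine (hχ.noalg F x hx).mono ?_
    rintro y ⟨σ, hσ, h1, h2⟩
    obtain ⟨τ, hτ⟩ := toLK hσ
    exact ⟨τ, fun z hz => by rw [hτ, h1 z hz], by rw [hτ, h2]⟩

theorem ofLK {r m : ℕ} {χ : Finset ℚ → Fin m} : let _ := strK r χ;
    ∀ τ : ℚ ≃[LK r m] ℚ, ∃ σ ∈ AutC r χ, ∀ x, σ x = τ x := by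
  classical
  intro _ τ
  have hlt : ∀ x y, τ x < τ y ↔ x < y := fun x y => τ.map_rel (Sum.inl ⟨(), rfl⟩ : (LK r m).Relations 2) ![x, y]
  refine ⟨{ τ.toEquiv with map_rel_iff' := ?_ }, ?_, fun x => rfl⟩
  · intro x y
    change τ x ≤ τ y ↔ x ≤ y
    rw [← not_lt, ← not_lt, hlt]
  · intro S hS
    have h1 := τ.map_rel (Sum.inr ⟨χ S, hS⟩ : (LK r m).Relations S.card) (S.orderEmbOfFin rfl)
    have h2 : StrictMono (S.orderEmbOfFin rfl) ∧ χ (Finset.univ.image (S.orderEmbOfFin rfl)) = χ S :=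
      ⟨(S.orderEmbOfFin rfl).strictMono, by rw [Finset.image_orderEmbOfFin_univ]⟩
    have h3 : StrictMono (τ ∘ (S.orderEmbOfFin rfl)) ∧ χ (Finset.univ.image (τ ∘ (S.orderEmbOfFin rfl))) = χ S :=
      h1.2 h2
    rw [← h3.2]
    congr 1
    change S.image τ = _
    conv_lhs => rw [← Finset.image_orderEmbOfFin_univ S rfl]
    rw [Finset.image_image]

end Pool.Agent.Lib.PRX
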