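import Pool.Agent.Lib.PRX.Flow

/-!
# Ramsey degrees of points of a `G`-set
-/

set_option autoImplicit false

namespace Pool.Agent.Lib.PRX

open Set Topology

variable {G : Type*} [Group G]

/-- the space of colourings of a `G`-set -/
def colAct (G : Type*) [Group G] (X κ : Type*) [MulAction G X] [TopologicalSpace κ] : RAct G (X → κ) where
  a g c := fun x => c (g • x)
  cont g := continuous_pi fun x => continuous_apply (g • x)
  one z := by funext x; simp
  mul g h z := by funext x; simp [mul_smul]

/-- every colouring of the `G`-set `X` has a copy of each finite set with at most `d` colours -/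
def Deg (G : Type*) [Group G] (X : Type*) [MulAction G X] (d : ℕ) : Prop :=
  ∀ (k : ℕ) (c : X → Fin k) (B : Finset X), ∃ g : G, (B.image fun x => c (g • x)).card ≤ d

variable {X κ : Type*} [MulAction G X] [TopologicalSpace κ] [DiscreteTopology κ]

theorem isOpen_restr (B : Finset X) (P : (B → κ) → Prop) : IsOpen {c : X → κ | P (fun b => c b)} := by
  have h : Continuous (fun c : X → κ => fun b : B => c b) := by fun_prop
  exact (isOpen_discrete {f : B → κ | P f}).preimage h

theorem isClopen_restr (B : Finset X) (P : (B → κ) → Prop) : IsClopen {c : X → κ | P (fun b => c b)} := by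
  refine ⟨?_, isOpen_restr B P⟩
  rw [← isOpen_compl_iff]
  exact isOpen_restr B (fun f => ¬ P f)

omit [TopologicalSpace κ] [DiscreteTopology κ] in
theorem image_attach_card [DecidableEq κ] (B : Finset X) (c : X → κ) :
    (Finset.univ.image fun b : B => c b).card = (B.image c).card := by
  congr 1
  ext x
  simp

theorem deg_range [Finite κ] {d : ℕ} (hd : Deg G X d) {S : Set (X → κ)} (hS : Mn (colAct G X κ) S)
    {c : X → κ} (hc : c ∈ S) : (range c).ncard ≤ d := by
  classical
  have := Fintype.ofFinite κ
  by_contra hcon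
  push Not at hcon
  -- a finite set on which all colours are attained
  have h1 : ∀ y : range c, ∃ x, c x = y := fun y => y.2
  choose s hs using h1
  set B : Finset X := Finset.univ.image s with hB
  have h2 : (B.image c).card = (range c).ncard := by
    rw [← Set.ncard_coe_finset]
    congr 1
    ext y
    simp only [hB, Finset.coe_image, Finset.coe_univ, mem_image, mem_univ, true_and, exists_exists_eq_and, mem_range]
    constructor
    · rintro ⟨y', rfl⟩
      exact ⟨_, rfl⟩
    · rintro ⟨x, rfl⟩
      exact ⟨⟨c x, x, rfl⟩, hs _⟩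
  have hU : IsOpen {c' : X → κ | d < (B.image c').card} := by
    have := isOpen_restr B (fun f : B → κ => d < (Finset.univ.image f).card)
    simp only [image_attach_card] at this
    exact this
  obtain ⟨T, hT⟩ := hS.recur hU ⟨c, by rw [mem_ofPred_eq, h2]; exact hcon, hc⟩
  let e : κ ≃ Fin (Fintype.card κ) := Fintype.equivFin κ
  obtain ⟨h, hh⟩ := hd _ (fun x => e (c x)) (T.biUnion fun g => B.image fun x => g • x)
  obtain ⟨g, hg, hgU⟩ := hT _ (hS.inv h c hc)
  have h3 : (B.image ((colAct G X κ).a g ((colAct G X κ).a h c))).card ≤ d := by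
    refine le_trans ?_ hh
    have h4 : (B.image ((colAct G X κ).a g ((colAct G X κ).a h c))).card =
        ((B.image ((colAct G X κ).a g ((colAct G X κ).a h c))).image e).card :=
      (Finset.card_image_of_injective _ e.injective).symm
    rw [h4]
    refine Finset.card_le_card ?_
    intro y hy
    simp only [Finset.mem_image, exists_exists_and_eq_and] at hy
    obtain ⟨x, hx, rfl⟩ := hy
    rw [Finset.mem_image]
    exact ⟨g • x, Finset.mem_biUnion.2 ⟨g, hg, Finset.mem_image_of_mem _ hx⟩, rfl⟩
  exact absurd h3 (not_le.2 hgU)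

/-- the same for an equivariant family of colourings -/
theorem deg_range_map [Finite κ] {d : ℕ} (hd : Deg G X d) {Z : Type*} [TopologicalSpace Z] [CompactSpace Z]
    {A : RAct G Z} {S : Set Z} (hS : Mn A S) (f : Z → X → κ) (hf : Continuous f)
    (hfe : ∀ g z x, f (A.a g z) x = f z (g • x)) {z : Z} (hz : z ∈ S) : (range (f z)).ncard ≤ d :=
  deg_range hd (hS.map (A' := colAct G X κ) f hf fun g z => funext fun x => hfe g z x) ⟨z, hz, rfl⟩

omit [TopologicalSpace κ] [DiscreteTopology κ] in
/-- the exact degree has a witness -/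
theorem deg_witness (h : ∃ d, Deg G X d) : ∃ t : ℕ, Deg G X t ∧ ∃ (k : ℕ) (c : X → Fin k) (B : Finset X),
    ∀ g : G, t ≤ (B.image fun x => c (g • x)).card := by
  classical
  obtain ⟨t, ht, hmin⟩ : ∃ t, Deg G X t ∧ ∀ m < t, ¬ Deg G X m :=
    ⟨Nat.find h, Nat.find_spec h, fun m hm => Nat.find_min h hm⟩
  refine ⟨t, ht, ?_⟩
  rcases Nat.eq_zero_or_pos t with h0 | h0
  · rw [h0]
    exact ⟨1, fun _ => 0, ∅, fun g => Nat.zero_le _⟩
  · have h1 := hmin (t - 1) (by omega)
    unfold Deg at h1
    push Not at h1
    obtain ⟨k, c, B, h2⟩ := h1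
    exact ⟨k, c, B, fun g => by have := h2 g; omega⟩

end Pool.Agent.Lib.PRX
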