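import Pool.Agent.Lib.PRX.Ext
import Pool.Agent.Lib.PRX.Deg

/-!
# The cover of an orbit of tuples
-/

set_option autoImplicit false

namespace Pool.Agent.Lib.PRX

open FirstOrder FirstOrder.Language

/-- the language of the cover -/
def LC (L : FirstOrder.Language.{0,0}) (n : ℕ) : FirstOrder.Language.{0,0} :=
  ⟨fun _ => Empty, fun m => (L.Relations m × (Fin m → Fin n)) ⊕ {_p : Option (Fin n × Fin n) // m = 2}⟩

section

variable {L : FirstOrder.Language.{0,0}} {M : Type} [L.Structure M] {n : ℕ}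

/-- the points of the cover: infinitely many copies of the tuples in the orbit of `a` -/
abbrev CP (L : FirstOrder.Language.{0,0}) {M : Type} [L.Structure M] {n : ℕ} (a : Fin n → M) : Type :=
  MulAction.orbit (AutG L M) a × ℚ

/-- coordinates of points of the cover -/
def co {a : Fin n → M} (p : CP L a) (i : Fin n) : M := p.1.1 i

/-- an injection of the orbit into the natural numbers -/
noncomputable def en (L : FirstOrder.Language.{0,0}) {M : Type} [Countable M] [L.Structure M] {n : ℕ}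
    (a : Fin n → M) : MulAction.orbit (AutG L M) a → ℕ := (exists_injective_nat _).choose

theorem en_inj (L : FirstOrder.Language.{0,0}) {M : Type} [Countable M] [L.Structure M] {n : ℕ}
    (a : Fin n → M) : Function.Injective (en L a) := (exists_injective_nat _).choose_spec

/-- the position of a point of the cover on the real line: all fibres are dense and they are disjoint -/
noncomputable def ps [Countable M] {a : Fin n → M} (p : CP L a) : ℝ := (p.2 : ℝ) + √2 * (en L a p.1 : ℝ)

theorem ps_inj [Countable M] {a : Fin n → M} : Function.Injective (ps : CP L a → ℝ) := by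
  rintro ⟨x, s⟩ ⟨y, t⟩ h
  simp only [ps] at h
  by_cases hxy : en L a x = en L a y
  · obtain rfl := en_inj L a hxy
    have h1 : (s : ℝ) = t := by linarith
    rw [Rat.cast_injective h1]
  · exfalso
    have h1 : √2 * (((en L a x : ℤ) - (en L a y : ℤ) : ℤ) : ℝ) = ((t - s : ℚ) : ℝ) := by
      push_cast
      linarith
    have h2 : (((en L a x : ℤ) - (en L a y : ℤ) : ℤ) : ℝ) ≠ 0 := by
      rw [Int.cast_ne_zero]
      omega
    have h3 : √2 = (((t - s) / ((en L a x : ℤ) - (en L a y : ℤ) : ℤ) : ℚ) : ℝ) := by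
      rw [Rat.cast_div, Rat.cast_intCast, eq_div_iff h2, h1]
    exact irrational_sqrt_two ⟨_, h3.symm⟩

theorem fib_inf [Countable M] {a : Fin n → M} (x : MulAction.orbit (AutG L M) a) (m m' : ℝ) (h : m < m') :
    {q : CP L a | q.1 = x ∧ m < ps q ∧ ps q < m'}.Infinite := by
  obtain ⟨r1, h1, h2⟩ := exists_rat_btwn (sub_lt_sub_right h (√2 * (en L a x : ℝ)))
  obtain ⟨r2, h3, h4⟩ := exists_rat_btwn h2
  have h5 : r1 < r2 := by exact_mod_cast h3
  have h6 : ((fun s : ℚ => ((x, s) : CP L a)) '' Set.Ioo r1 r2).Infinite :=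
    (Set.Ioo_infinite h5).image (fun s _ t _ hst => (Prod.mk.inj hst).2)
  refine h6.mono ?_
  rintro _ ⟨s, ⟨hs1, hs2⟩, rfl⟩
  have h7 : (r1 : ℝ) < s := by exact_mod_cast hs1
  have h8 : (s : ℝ) < r2 := by exact_mod_cast hs2
  refine ⟨rfl, ?_, ?_⟩
  · simp only [ps]
    linarith
  · simp only [ps]
    linarith

/-- the structure of the cover -/
@[reducible] noncomputable def strC (L : FirstOrder.Language.{0,0}) {M : Type} [Countable M] [L.Structure M]
    {n : ℕ} (a : Fin n → M) : (LC L n).Structure (CP L a) where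
  funMap f := Empty.elim f
  RelMap {m} R p := Sum.elim (fun R : L.Relations m × (Fin m → Fin n) =>
      Structure.RelMap R.1 (fun i => co (p i) (R.2 i)))
    (fun r : {_p : Option (Fin n × Fin n) // m = 2} =>
      r.1.elim (ps (p ⟨0, by have := r.2; omega⟩) < ps (p ⟨1, by have := r.2; omega⟩))
      (fun z => co (p ⟨0, by have := r.2; omega⟩) z.1 = co (p ⟨1, by have := r.2; omega⟩) z.2)) R

theorem LC_rel : ∀ m, IsEmpty ((LC L n).Functions m) := fun _ => inferInstanceAs (IsEmpty Empty)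

theorem LC_fin (hfin : Finite (Σ m, L.Relations m)) : Finite (Σ m, (LC L n).Relations m) := by
  have h1 : Finite (Σ r : (Σ m, L.Relations m), (Fin r.1 → Fin n)) := inferInstance
  let f : (Σ m, (LC L n).Relations m) →
      (Σ r : (Σ m, L.Relations m), (Fin r.1 → Fin n)) ⊕ Option (Fin n × Fin n) :=
    fun x => match x with
    | ⟨m, Sum.inl R⟩ => Sum.inl ⟨⟨m, R.1⟩, R.2⟩
    | ⟨_, Sum.inr r⟩ => Sum.inr r.1
  refine Finite.of_injective f ?_
  rintro ⟨m, (⟨R, j⟩ | ⟨r, rfl⟩)⟩ ⟨m', (⟨R', j'⟩ | ⟨r', rfl⟩)⟩ h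
  · simp only [f, Sum.inl.injEq, Sigma.mk.injEq] at h
    obtain ⟨⟨rfl, h1⟩, h2⟩ := h
    obtain rfl := eq_of_heq h1
    obtain rfl := eq_of_heq h2
    rfl
  · simp [f] at h
  · simp [f] at h
  · simp only [f, Sum.inr.injEq] at h
    subst h
    rfl

theorem LC_ar {A : Set ℕ} (h2 : 2 ∈ A) (hA : ∀ m, m ∉ A → IsEmpty (L.Relations m)) (m : ℕ) (hm : m ∉ A) :
    IsEmpty ((LC L n).Relations m) := by
  have := hA m hm
  refine ⟨fun R => ?_⟩
  rcases R with ⟨R, -⟩ | ⟨-, rfl⟩
  · exact this.false R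
  · exact hm h2

variable [Countable M] {a : Fin n → M}

/-- the cover sees the tuples -/
theorem cov_key (hL : ∀ m, IsEmpty (L.Functions m)) (hM : L.IsUltrahomogeneous M) {ι : Type} [Finite ι]
    {P P' : ι → CP L a} (h : @Same (LC L n) (CP L a) (strC L a) _ P P') :
    ∃ σ : M ≃[L] M, ∀ s i, σ (co (P s) i) = co (P' s) i := by
  let _ := strC L a
  obtain ⟨σ, hσ⟩ := ext_of_data hL hM (fun z : ι × Fin n => co (P z.1) z.2) (fun z => co (P' z.1) z.2)
    (by
      rintro ⟨s, i⟩ ⟨s', i'⟩
      exact h.rel 2 (Sum.inr ⟨some (i, i'), rfl⟩) ![s, s'])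
    (by
      intro m R v
      exact h.rel m (Sum.inl (R, fun k => (v k).2)) (fun k => (v k).1))
  exact ⟨σ, fun s i => hσ (s, i)⟩

theorem cov_ord {ι : Type} {P P' : ι → CP L a} (h : @Same (LC L n) (CP L a) (strC L a) _ P P') (s s' : ι) :
    ps (P s) < ps (P s') ↔ ps (P' s) < ps (P' s') := by
  let _ := strC L a
  exact h.rel 2 (Sum.inr ⟨none, rfl⟩) ![s, s']

/-- automorphisms act on the cover, the copies are arbitrary up to order -/
theorem same_of_aut {ι : Type} {P P' : ι → CP L a} (σ : M ≃[L] M) (hσ : ∀ s i, σ (co (P s) i) = co (P' s) i)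
    (hord : ∀ s s', ps (P s) < ps (P s') ↔ ps (P' s) < ps (P' s')) :
    @Same (LC L n) (CP L a) (strC L a) _ P P' := by
  let _ := strC L a
  refine ⟨fun s s' => ?_, fun m R v => ?_⟩
  · have h1 : ∀ p q : CP L a, p = q ↔ ¬ ps p < ps q ∧ ¬ ps q < ps p := by
      intro p q
      constructor
      · rintro rfl
        simp
      · rintro ⟨h1, h2⟩
        exact ps_inj (le_antisymm (not_lt.1 h2) (not_lt.1 h1))
    rw [h1, h1, hord, hord]
  · match R with
    | Sum.inl (R, j) =>
      change Structure.RelMap R (fun i => co (P (v i)) (j i)) ↔ Structure.RelMap R (fun i => co (P' (v i)) (j i))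
      have h1 := σ.map_rel R (fun i => co (P (v i)) (j i))
      have h2 : (σ ∘ fun i => co (P (v i)) (j i)) = fun i => co (P' (v i)) (j i) := by
        funext i
        exact hσ _ _
      rw [h2] at h1
      exact h1.symm
    | Sum.inr ⟨some (i, i'), hm⟩ =>
      subst hm
      change co (P (v 0)) i = co (P (v 1)) i' ↔ co (P' (v 0)) i = co (P' (v 1)) i'
      rw [← hσ, ← hσ, σ.injective.eq_iff]
    | Sum.inr ⟨none, hm⟩ =>
      subst hm
      exact hord (v 0) (v 1)

/-- a gap -/
theorem exists_gap (lo hi : Finset ℝ) (h : ∀ x ∈ lo, ∀ y ∈ hi, x < y) :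
    ∃ m m' : ℝ, m < m' ∧ (∀ x ∈ lo, x < m) ∧ ∀ y ∈ hi, m' < y := by
  classical
  obtain ⟨m, h1, h2⟩ := Order.exists_between_finsets lo hi h
  obtain ⟨m', h3, h4⟩ := Order.exists_between_finsets (insert m lo) hi (by
    intro x hx y hy
    rw [Finset.mem_insert] at hx
    rcases hx with rfl | hx
    · exact h2 y hy
    · exact h x hx y hy)
  exact ⟨m, m', h3 m (Finset.mem_insert_self _ _), h1, h4⟩

/-- all points in a cut above a given tuple -/
theorem cut_inf {ι : Type} [Finite ι] (P P' : ι → CP L a) (q : CP L a) (hq : ∀ s, P s ≠ q)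
    (hord : ∀ s s', ps (P s) < ps (P s') ↔ ps (P' s) < ps (P' s')) (x : MulAction.orbit (AutG L M) a) :
    {q' : CP L a | q'.1 = x ∧ (∀ s, ps (P s) < ps q ↔ ps (P' s) < ps q') ∧
      ∀ s, ps q < ps (P s) ↔ ps q' < ps (P' s)}.Infinite := by
  classical
  have := Fintype.ofFinite ι
  obtain ⟨m, m', h1, h2, h3⟩ := exists_gap
    ((Finset.univ.filter fun s => ps (P s) < ps q).image fun s => ps (P' s))
    ((Finset.univ.filter fun s => ps q < ps (P s)).image fun s => ps (P' s)) (by
      intro x hx y hy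
      simp only [Finset.mem_image, Finset.mem_filter, Finset.mem_univ, true_and] at hx hy
      obtain ⟨s, hs, rfl⟩ := hx
      obtain ⟨s', hs', rfl⟩ := hy
      exact (hord s s').1 (hs.trans hs'))
  have h4 : ∀ s, ps (P s) < ps q → ps (P' s) < m := fun s hs => h2 _ (by
    simp only [Finset.mem_image, Finset.mem_filter, Finset.mem_univ, true_and]
    exact ⟨s, hs, rfl⟩)
  have h5 : ∀ s, ps q < ps (P s) → m' < ps (P' s) := fun s hs => h3 _ (by
    simp only [Finset.mem_image, Finset.mem_filter, Finset.mem_univ, true_and]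
    exact ⟨s, hs, rfl⟩)
  have h6 : ∀ s, ps (P s) < ps q ∨ ps q < ps (P s) := fun s => by
    rcases lt_trichotomy (ps (P s)) (ps q) with h | h | h
    · exact Or.inl h
    · exact absurd (ps_inj h) (hq s)
    · exact Or.inr h
  refine (fib_inf x m m' h1).mono ?_
  rintro q' ⟨hx, h7, h8⟩
  refine ⟨hx, fun s => ⟨fun h => (h4 s h).trans h7, fun h => ?_⟩, fun s => ⟨fun h => h8.trans (h5 s h), fun h => ?_⟩⟩
  · rcases h6 s with h9 | h9
    · exact h9
    · have := h5 s h9
      linarith
  · rcases h6 s with h9 | h9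
    · have := h4 s h9
      linarith
    · exact h9

/-- the orbit is closed under automorphisms -/
theorem exists_over (σ : M ≃[L] M) (x : MulAction.orbit (AutG L M) a) :
    ∃ y : MulAction.orbit (AutG L M) a, ∀ i, σ (x.1 i) = y.1 i :=
  ⟨toG σ • x, fun _ => rfl⟩

/-- the cover is ultrahomogeneous -/
theorem cov_uh (hL : ∀ m, IsEmpty (L.Functions m)) (hM : L.IsUltrahomogeneous M) :
    @IsUltrahomogeneous (LC L n) (CP L a) (strC L a) := by
  let _ := strC L a
  refine uh_of_ext LC_rel fun N P P' hPP q => ?_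
  by_cases hq : ∃ s, P s = q
  · obtain ⟨s, rfl⟩ := hq
    refine ⟨P' s, ?_⟩
    have h1 := hPP.comp (Fin.snoc (α := fun _ => Fin N) id s : Fin (N + 1) → Fin N)
    have h2 : ∀ P : Fin N → CP L a, P ∘ (Fin.snoc (α := fun _ => Fin N) id s : Fin (N + 1) → Fin N) =
        Fin.snoc (α := fun _ => CP L a) P (P s) := by
      intro P
      funext i
      refine Fin.lastCases ?_ (fun i => ?_) i <;> simp
    rw [h2, h2] at h1
    exact h1
  · push Not at hq
    obtain ⟨σ, hσ⟩ := cov_key hL hM hPP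
    obtain ⟨y, hy⟩ := exists_over σ q.1
    obtain ⟨q', h1, h2, h3⟩ := (cut_inf P P' q hq (cov_ord hPP) y).nonempty
    refine ⟨q', same_of_aut σ ?_ ?_⟩
    · intro s i
      refine Fin.lastCases ?_ (fun s => ?_) s
      · simp only [Fin.snoc_last]
        change σ (q.1.1 i) = q'.1.1 i
        rw [h1]
        exact hy i
      · simpa using hσ s i
    · intro s s'
      refine Fin.lastCases ?_ (fun s => ?_) s
      · refine Fin.lastCases ?_ (fun s' => ?_) s'
        · simp
        · simpa using h3 s'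
      · refine Fin.lastCases ?_ (fun s' => ?_) s'
        · simpa using h2 s
        · simpa using cov_ord hPP s s'

/-- the cover is transitive -/
theorem cov_trans (hL : ∀ m, IsEmpty (L.Functions m)) (hM : L.IsUltrahomogeneous M)
    (p q : CP L a) : let _ := strC L a; ∃ τ : CP L a ≃[LC L n] CP L a, τ p = q := by
  intro _
  obtain ⟨g, hg⟩ : ∃ g : AutG L M, g • p.1.1 = q.1.1 := by
    obtain ⟨g, hg⟩ := p.1.2
    obtain ⟨g', hg'⟩ := q.1.2
    have h1 : g • a = p.1.1 := hg
    have h2 : g' • a = q.1.1 := hg'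
    exact ⟨g' * g⁻¹, by rw [mul_smul, ← h1, inv_smul_smul, h2]⟩
  obtain ⟨σ, hσ⟩ := exists_aut g
  have h1 : Same (LC L n) (fun _ : Unit => p) (fun _ => q) :=
    same_of_aut σ (fun _ i => by rw [hσ]; exact congrFun hg i) (fun _ _ => by simp)
  obtain ⟨τ, hτ⟩ := ext_of_data LC_rel (cov_uh hL hM) _ _ h1.inj h1.rel
  exact ⟨τ, hτ ()⟩

/-- the cover has no algebraicity -/
theorem cov_noalg (hL : ∀ m, IsEmpty (L.Functions m)) (hM : L.IsUltrahomogeneous M)
    (F : Finset (CP L a)) (p : CP L a) (hp : p ∉ F) : let _ := strC L a;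
    {q | ∃ τ : CP L a ≃[LC L n] CP L a, (∀ x ∈ F, τ x = x) ∧ τ p = q}.Infinite := by
  intro _
  have hinf := cut_inf (fun s : F => s.1) (fun s : F => s.1) p (fun s h => hp (h ▸ s.2)) (fun _ _ => Iff.rfl) p.1
  refine hinf.mono ?_
  rintro q ⟨hq1, hq2, hq3⟩
  have h1 : Same (LC L n) (fun s : Option F => s.elim p (fun s => s.1)) (fun s => s.elim q (fun s => s.1)) := by
    refine same_of_aut (FirstOrder.Language.Equiv.refl L M) ?_ ?_
    · rintro (_ | s) i
      · change co p i = co q i
        simp only [co, hq1]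
      · rfl
    · rintro (_ | s) (_ | s')
      · simp
      · exact hq3 s'
      · exact hq2 s
      · rfl
  obtain ⟨τ, hτ⟩ := ext_of_data LC_rel (cov_uh hL hM) _ _ h1.inj h1.rel
  exact ⟨τ, fun x hx => hτ (some ⟨x, hx⟩), hτ none⟩

/-- a relation of the cover is a linear order -/
theorem cov_linear : let _ := strC L a; ∃ R : (LC L n).Relations 2,
    IsStrictTotalOrder (CP L a) (fun x y => Structure.RelMap R ![x, y]) := by
  intro _
  refine ⟨Sum.inr ⟨none, rfl⟩, ?_⟩
  have h : (fun x y : CP L a => Structure.RelMap (L := LC L n) (Sum.inr ⟨none, rfl⟩ : (LC L n).Relations 2) ![x, y]) =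
      fun x y => ps x < ps y := rfl
  rw [h]
  exact
    { trichotomous := fun x y h1 h2 => ps_inj (le_antisymm (not_lt.1 h2) (not_lt.1 h1))
      irrefl := fun x => lt_irrefl _
      trans := fun x y z => lt_trans }

/-- vertex degrees of the cover bound the degrees of the orbit -/
theorem cov_deg (hL : ∀ m, IsEmpty (L.Functions m)) (hM : L.IsUltrahomogeneous M) {d : ℕ}
    (hd : let _ := strC L a; ∀ (k : ℕ) (c : CP L a → Fin k) (B : Finset (CP L a)),
      ∃ τ : CP L a ≃[LC L n] CP L a, (B.image fun x => c (τ x)).card ≤ d) :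
    Deg (AutG L M) (MulAction.orbit (AutG L M) a) d := by
  classical
  let _ := strC L a
  intro k c B
  obtain ⟨τ, hτ⟩ := hd k (fun p => c p.1) (B.image fun x => (x, 0))
  have h1 : Same (LC L n) (fun s : B => ((s.1, 0) : CP L a)) (fun s => τ (s.1, 0)) := by
    refine ⟨fun s s' => τ.injective.eq_iff.symm, fun m R v => ?_⟩
    exact (τ.map_rel R (fun i => (((v i).1, 0) : CP L a))).symm
  obtain ⟨σ, hσ⟩ := cov_key hL hM h1
  refine ⟨toG σ, ?_⟩
  refine le_trans (Finset.card_le_card ?_) hτ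
  intro y hy
  rw [Finset.mem_image] at hy
  obtain ⟨x, hx, rfl⟩ := hy
  rw [Finset.mem_image]
  refine ⟨(x, 0), Finset.mem_image_of_mem _ hx, ?_⟩
  have h2 : toG σ • x = (τ (x, 0)).1 := by
    apply Subtype.ext
    funext i
    exact hσ ⟨x, hx⟩ i
  rw [h2]

end

end Pool.Agent.Lib.PRX
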