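import Mathlib

/-!
# Iterated ultrafilters on a tree and generic blocks

`U : M → Ultrafilter M` (the children of a node), `D U n a` the distribution of the depth `n` descendants of `a`.
-/

set_option autoImplicit false

namespace Pool.Agent.Lib.PRX

open Filter

universe u

variable {M : Type u} {T : Type*}

/-- depth `n` descendants -/
noncomputable def D (U : M → Ultrafilter M) : ℕ → M → Ultrafilter M
  | 0, a => pure a
  | n + 1, a => (U a).bind (D U n)

theorem ev_bind {α β : Type*} (f : Ultrafilter α) (m : α → Ultrafilter β) (p : β → Prop) :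
    (∀ᶠ y in (f.bind m : Filter β), p y) ↔ ∀ᶠ x in (f : Filter α), ∀ᶠ y in (m x : Filter β), p y :=
  Iff.rfl

theorem ev_D_zero (U : M → Ultrafilter M) (a : M) (p : M → Prop) :
    (∀ᶠ y in (D U 0 a : Filter M), p y) ↔ p a := by
  change (∀ᶠ y in (pure a : Filter M), p y) ↔ p a
  exact Filter.eventually_pure

theorem ev_D_succ (U : M → Ultrafilter M) (n : ℕ) (a : M) (p : M → Prop) :
    (∀ᶠ y in (D U (n + 1) a : Filter M), p y) ↔
      ∀ᶠ x in (U a : Filter M), ∀ᶠ y in (D U n x : Filter M), p y := Iff.rfl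

theorem ev_D_add (U : M → Ultrafilter M) (m n : ℕ) (a : M) (p : M → Prop) :
    (∀ᶠ y in (D U (m + n) a : Filter M), p y) ↔
      ∀ᶠ x in (D U m a : Filter M), ∀ᶠ y in (D U n x : Filter M), p y := by
  induction m generalizing a with
  | zero => rw [Nat.zero_add, ev_D_zero]
  | succ m ih =>
    rw [Nat.succ_add, ev_D_succ, ev_D_succ]
    simp only [ih]

theorem ex_lim {α : Type*} [Finite T] (U : Ultrafilter α) (f : α → T) :
    ∃ t, ∀ᶠ x in (U : Filter α), f x = t := by
  obtain ⟨t, ht⟩ := (U.map f).eq_pure_of_finite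
  refine ⟨t, ?_⟩
  have h : {t} ∈ U.map f := by rw [ht]; exact Filter.singleton_mem_pure
  exact h

/-- the limit of a function with finitely many values along an ultrafilter -/
noncomputable def lm {α : Type*} [Finite T] (U : Ultrafilter α) (f : α → T) : T := (ex_lim U f).choose

theorem lm_spec {α : Type*} [Finite T] (U : Ultrafilter α) (f : α → T) :
    ∀ᶠ x in (U : Filter α), f x = lm U f := (ex_lim U f).choose_spec

theorem lm_eq {α : Type*} [Finite T] (U : Ultrafilter α) (f : α → T) (t : T)
    (h : ∀ᶠ x in (U : Filter α), f x = t) : lm U f = t := by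
  obtain ⟨x, hx1, hx2⟩ := ((lm_spec U f).and h).exists
  rw [← hx1, hx2]

/-- nonprincipal -/
def NP (𝒟 : Ultrafilter M) : Prop := ∀ c, ∀ᶠ x in (𝒟 : Filter M), x ≠ c

theorem NP.finite {𝒟 : Ultrafilter M} (h : NP 𝒟) {s : Set M} (hs : s.Finite) :
    ∀ᶠ x in (𝒟 : Filter M), x ∉ s := by
  have : ∀ᶠ x in (𝒟 : Filter M), ∀ c ∈ s, x ≠ c := by
    rw [Filter.eventually_all_finite hs]
    exact fun c _ => h c
  filter_upwards [this] with x hx hxs
  exact hx x hxs rfl

theorem NP.D {U : M → Ultrafilter M} (hU : ∀ a, NP (U a)) (n : ℕ) (hn : 1 ≤ n) (a : M) :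
    NP (D U n a) := by
  obtain ⟨n, rfl⟩ : ∃ k, n = k + 1 := ⟨n - 1, by omega⟩
  clear hn
  induction n generalizing a with
  | zero =>
    intro c
    rw [ev_D_succ]
    simp only [ev_D_zero]
    exact hU a c
  | succ n ih =>
    intro c
    rw [ev_D_succ]
    exact Filter.Eventually.of_forall fun x => ih x c

/-- positions of the leaves of a `b`-ary tree of height `n` -/
def Ix (b : ℕ) : ℕ → Type
  | 0 => Unit
  | n + 1 => Fin b × Ix b n

noncomputable instance Ix.fintype (b : ℕ) : (n : ℕ) → Fintype (Ix b n)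
  | 0 => inferInstanceAs (Fintype Unit)
  | n + 1 => by
    haveI := Ix.fintype b n
    exact inferInstanceAs (Fintype (Fin b × Ix b n))

variable (q : M → M → T) (E : M → M → Prop) (th : ℕ → T) (t0 : T)

/-- `Blk b n v F`: `F` lists the leaves of a `b`-ary `E`-tree of height `n` with root `v`; leaves meeting at height
`e` (the first one on the left) have type `th e`, each leaf has type `t0` with itself. -/
def Blk (b : ℕ) : (n : ℕ) → M → (Ix b n → M) → Prop
  | 0, v, F => F () = v ∧ q v v = t0
  | n + 1, v, F => ∃ u : Fin b → M, Function.Injective u ∧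
      (∀ i, E v (u i) ∧ Blk b n (u i) (fun x => F (i, x))) ∧
      ∀ i j, i < j → ∀ x y, q (F (i, x)) (F (j, y)) = th (n + 1)

/-- a sequence of `m` blocks of height `n` with cross type `t` -/
def Sys (b n m : ℕ) (t : T) (F : Fin m → Ix b n → M) : Prop :=
  (∀ i, ∃ u, Blk q E th t0 b n u (F i)) ∧ ∀ i j, i < j → ∀ x y, q (F i x) (F j y) = t

variable {q E th t0}

/-- Two blocks of the same height look alike. -/
theorem Blk.look (hsw : ∀ x y x' y', q x y = q x' y' → q y x = q y' x') {b n : ℕ} {v v' : M}
    {F F' : Ix b n → M} (h : Blk q E th t0 b n v F) (h' : Blk q E th t0 b n v' F') (x y : Ix b n) :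
    q (F x) (F y) = q (F' x) (F' y) := by
  induction n generalizing v v' with
  | zero =>
    obtain ⟨h1, h2⟩ := h
    obtain ⟨h1', h2'⟩ := h'
    change q (F ()) (F ()) = q (F' ()) (F' ())
    rw [h1, h2, h1', h2']
  | succ n ih =>
    obtain ⟨u, _, h1, h2⟩ := h
    obtain ⟨u', _, h1', h2'⟩ := h'
    obtain ⟨i, x⟩ := x
    obtain ⟨j, y⟩ := y
    rcases lt_trichotomy i j with hij | hij | hij
    · rw [h2 i j hij, h2' i j hij]
    · subst hij
      exact ih (h1 i).2 (h1' i).2 x y
    · apply hsw
      rw [h2 j i hij, h2' j i hij]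

theorem Sys.look (hsw : ∀ x y x' y', q x y = q x' y' → q y x = q y' x') {b n m : ℕ} {t : T}
    {F F' : Fin m → Ix b n → M} (h : Sys q E th t0 b n m t F) (h' : Sys q E th t0 b n m t F')
    (i j : Fin m) (x y : Ix b n) : q (F i x) (F j y) = q (F' i x) (F' j y) := by
  rcases lt_trichotomy i j with hij | hij | hij
  · rw [h.2 i j hij, h'.2 i j hij]
  · subst hij
    obtain ⟨u, hu⟩ := h.1 i
    obtain ⟨u', hu'⟩ := h'.1 i
    exact hu.look hsw hu' x y
  · apply hsw
    rw [h.2 j i hij, h'.2 j i hij]

/-- regular nodes: the leaves below typical descendants have the right types -/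
def Reg (U : M → Ultrafilter M) (q : M → M → T) (E : M → M → Prop) (th : ℕ → T) (t0 : T) (n : ℕ) (v : M) : Prop :=
  (∀ᶠ x in (D U n v : Filter M), q x x = t0) ∧
  ∀ j, j < n → ∀ᶠ w in (D U j v : Filter M), (∀ᶠ u in (U w : Filter M), E w u) ∧
    ∀ᶠ x in (D U (n - j) w : Filter M), ∀ᶠ y in (D U (n - j) w : Filter M), q x y = th (n - j)

theorem Reg.child {U : M → Ultrafilter M} {n : ℕ} {v : M} (h : Reg U q E th t0 (n + 1) v) :
    ∀ᶠ u in (U v : Filter M), Reg U q E th t0 n u := by
  have h1 : ∀ᶠ u in (U v : Filter M), ∀ᶠ x in (D U n u : Filter M), q x x = t0 := h.1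
  have h2 : ∀ᶠ u in (U v : Filter M), ∀ j ∈ Set.Iio n, ∀ᶠ w in (D U j u : Filter M),
      (∀ᶠ u in (U w : Filter M), E w u) ∧
      ∀ᶠ x in (D U (n - j) w : Filter M), ∀ᶠ y in (D U (n - j) w : Filter M), q x y = th (n - j) := by
    rw [Filter.eventually_all_finite (Set.finite_Iio n)]
    intro j hj
    have := h.2 (j + 1) (by simpa using hj)
    rw [ev_D_succ, Nat.add_sub_add_right] at this
    exact this
  filter_upwards [h1, h2] with u hu1 hu2
  exact ⟨hu1, fun j hj => hu2 j hj⟩

/-- Selection of a system of blocks. -/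
theorem exists_sys {U : M → Ultrafilter M} {b n : ℕ} {t : T} (𝒟 : Ultrafilter M)
    (hsel : ∀ v, Reg U q E th t0 n v → ∀ P : M → Prop, (∀ᶠ y in (D U n v : Filter M), P y) →
      ∃ F : Ix b n → M, Blk q E th t0 b n v F ∧ ∀ x, P (F x))
    (hreg : ∀ᶠ v in (𝒟 : Filter M), Reg U q E th t0 n v)
    (ht : ∀ᶠ x in (𝒟.bind (D U n) : Filter M), ∀ᶠ y in (𝒟.bind (D U n) : Filter M), q x y = t)
    (hNP : NP 𝒟) (Z : M → Prop) (hZ : ∀ᶠ u in (𝒟 : Filter M), Z u)
    (P : M → Prop) (hP : ∀ᶠ y in (𝒟.bind (D U n) : Filter M), P y) (m : ℕ) :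
    ∃ (u : Fin m → M) (F : Fin m → Ix b n → M), Function.Injective u ∧ (∀ i, Z (u i)) ∧
      (∀ i, Blk q E th t0 b n (u i) (F i)) ∧ (∀ i x, P (F i x)) ∧
      (∀ i j, i < j → ∀ x y, q (F i x) (F j y) = t) ∧
      (∀ i x, ∀ᶠ y in (𝒟.bind (D U n) : Filter M), q (F i x) y = t) := by
  induction m with
  | zero =>
    exact ⟨fun i => i.elim0, fun i => i.elim0, fun i => i.elim0, fun i => i.elim0, fun i => i.elim0,
      fun i => i.elim0, fun i => i.elim0, fun i => i.elim0⟩
  | succ m ih =>
    obtain ⟨u, F, h1, h2, h3, h4, h5, h6⟩ := ih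
    have h7 : ∀ᶠ y in (𝒟.bind (D U n) : Filter M), P y ∧
        (∀ᶠ z in (𝒟.bind (D U n) : Filter M), q y z = t) ∧ ∀ i x, q (F i x) y = t := by
      refine hP.and (ht.and ?_)
      rw [Filter.eventually_all]
      intro i
      rw [Filter.eventually_all]
      intro x
      exact h6 i x
    rw [ev_bind] at h7
    have h8 := hNP.finite (Set.finite_range u)
    obtain ⟨v, hv1, hv2, hv3, hv4⟩ := (h7.and (hreg.and (hZ.and h8))).exists
    obtain ⟨F', hF1, hF2⟩ := hsel v hv2 _ hv1
    refine ⟨Fin.snoc u v, Fin.snoc (α := fun _ => Ix b n → M) F F', ?_, ?_, ?_, ?_, ?_, ?_⟩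
    · intro i j hij
      induction i using Fin.lastCases with
      | last =>
        induction j using Fin.lastCases with
        | last => rfl
        | cast j =>
          simp only [Fin.snoc_last, Fin.snoc_castSucc] at hij
          exact absurd ⟨j, hij.symm⟩ hv4
      | cast i =>
        induction j using Fin.lastCases with
        | last =>
          simp only [Fin.snoc_last, Fin.snoc_castSucc] at hij
          exact absurd ⟨i, hij⟩ hv4
        | cast j =>
          simp only [Fin.snoc_castSucc] at hij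
          rw [h1 hij]
    · intro i
      induction i using Fin.lastCases with
      | last => simpa using hv3
      | cast i => simpa using h2 i
    · intro i
      induction i using Fin.lastCases with
      | last => simpa using hF1
      | cast i => simpa using h3 i
    · intro i x
      induction i using Fin.lastCases with
      | last => simpa using (hF2 x).1
      | cast i => simpa using h4 i x
    · intro i j hij x y
      induction j using Fin.lastCases with
      | last =>
        induction i using Fin.lastCases with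
        | last => exact absurd hij (lt_irrefl _)
        | cast i => simpa using (hF2 y).2.2 i x
      | cast j =>
        induction i using Fin.lastCases with
        | last => exact absurd hij (by simp [Fin.le_last])
        | cast i => simpa using h5 i j (by simpa using hij) x y
    · intro i x
      induction i using Fin.lastCases with
      | last => simpa using (hF2 x).2.1
      | cast i => simpa using h6 i x

/-- Selection of a block. -/
theorem exists_blk {U : M → Ultrafilter M} (hU : ∀ a, NP (U a)) (b : ℕ) (n : ℕ) (v : M)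
    (hv : Reg U q E th t0 n v) (P : M → Prop) (hP : ∀ᶠ y in (D U n v : Filter M), P y) :
    ∃ F : Ix b n → M, Blk q E th t0 b n v F ∧ ∀ x, P (F x) := by
  induction n generalizing v P with
  | zero =>
    rw [ev_D_zero] at hP
    have h0 := hv.1
    rw [ev_D_zero] at h0
    exact ⟨fun _ => v, ⟨rfl, h0⟩, fun _ => hP⟩
  | succ n ih =>
    have h0 := hv.2 0 (Nat.succ_pos n)
    rw [ev_D_zero, Nat.sub_zero] at h0
    obtain ⟨u, F, h1, h2, h3, h4, h5, -⟩ :=
      exists_sys (t := th (n + 1)) (U v) (fun w hw P hP => ih w hw P hP) hv.child h0.2 (hU v) _ h0.1 P hP b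
    exact ⟨fun z => F z.1 z.2, ⟨u, h1, fun i => ⟨h2 i, h3 i⟩, fun i j hij x y => h5 i j hij x y⟩,
      fun z => h4 z.1 z.2⟩

end Pool.Agent.Lib.PRX
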