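import Pool.Agent.Lib.PRX.Deg

/-!
# Finite Ramsey degrees give a generic Ramsey colouring
-/

set_option autoImplicit false

namespace Pool.Agent.Lib.PRX

open Set Topology

variable {G : Type*} [Group G]

theorem det {X κ₁ κ₂ : Type*} [MulAction G X] [TopologicalSpace κ₁] [DiscreteTopology κ₁] [Finite κ₁]
    [TopologicalSpace κ₂] [DiscreteTopology κ₂] [Finite κ₂] {t : ℕ} (hd : Deg G X t)
    {Z : Type*} [TopologicalSpace Z] [CompactSpace Z] {A : RAct G Z} {S : Set Z} (hS : Mn A S)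
    (f₁ : Z → X → κ₁) (hf₁ : Continuous f₁) (hfe₁ : ∀ g z x, f₁ (A.a g z) x = f₁ z (g • x))
    (f₂ : Z → X → κ₂) (hf₂ : Continuous f₂) (hfe₂ : ∀ g z x, f₂ (A.a g z) x = f₂ z (g • x))
    {z : Z} (hz : z ∈ S) (ht : t ≤ (range (f₁ z)).ncard) {a b : X} (hab : f₁ z a = f₁ z b) :
    f₂ z a = f₂ z b := by
  have h1 : (range (fun x => (f₁ z x, f₂ z x))).ncard ≤ t :=
    deg_range_map hd hS (fun z x => (f₁ z x, f₂ z x))
      (continuous_pi fun x => ((continuous_apply x).comp hf₁).prodMk ((continuous_apply x).comp hf₂))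
      (fun g z x => by simp only [hfe₁, hfe₂]) hz
  have h2 : Prod.fst '' (range (fun x => (f₁ z x, f₂ z x))) = range (f₁ z) := by
    rw [← range_comp]
    rfl
  have h3 : Set.InjOn Prod.fst (range (fun x => (f₁ z x, f₂ z x))) := by
    rw [← Set.ncard_image_iff (Set.toFinite _), h2]
    refine le_antisymm ?_ (h1.trans ht)
    rw [← h2]
    exact Set.ncard_image_le (Set.toFinite _)
  have h4 := h3 ⟨a, rfl⟩ ⟨b, rfl⟩ hab
  exact (Prod.mk.inj h4).2

/-- product action -/
def RAct.prod {Z Z' : Type*} [TopologicalSpace Z] [TopologicalSpace Z'] (A : RAct G Z) (A' : RAct G Z') :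
    RAct G (Z × Z') where
  a g z := (A.a g z.1, A'.a g z.2)
  cont g := ((A.cont g).comp continuous_fst).prodMk ((A'.cont g).comp continuous_snd)
  one z := by simp [A.one, A'.one]
  mul g h z := by simp [A.mul, A'.mul]

section main

variable {M : Type*} [MulAction G M] (k : ℕ → ℕ)

/-- the space of all colourings of tuples -/
abbrev ZZ (M : Type*) (k : ℕ → ℕ) : Type _ := ∀ n, (Fin n → M) → Fin (k n)

/-- the action on it -/
def zAct (G : Type*) [Group G] (M : Type*) [MulAction G M] (k : ℕ → ℕ) : RAct G (ZZ M k) where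
  a g z := fun n x => z n (g • x)
  cont g := continuous_pi fun n => continuous_pi fun x => (continuous_apply (g • x)).comp (continuous_apply n)
  one z := by funext n x; simp
  mul g h z := by funext n x; simp [mul_smul]

variable {k}

theorem cont_z (n : ℕ) : Continuous (fun z : ZZ M k => z n) := continuous_apply n

theorem cont_zx (n : ℕ) (x : Fin n → M) : Continuous (fun z : ZZ M k => z n x) :=
  (continuous_apply x).comp (continuous_apply n)

theorem open_eq (n : ℕ) (x : Fin n → M) (i : Fin (k n)) : IsOpen {z : ZZ M k | z n x = i} :=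
  (isOpen_discrete {i}).preimage (cont_zx n x)

/-- a minimal system of colourings with the exact number of colours -/
structure Good (G : Type*) [Group G] [MulAction G M] (t : ℕ → ℕ) (S : Set (ZZ M k)) : Prop where
  deg : ∀ n, Deg G (Fin n → M) (t n)
  mn : Mn (zAct G M k) S
  card : ∀ z ∈ S, ∀ n, t n ≤ (range (z n)).ncard

theorem exists_good (h : ∀ n, ∃ d, Deg G (Fin n → M) d) :
    ∃ (t k : ℕ → ℕ) (S : Set (ZZ M k)), Good G t S := by
  classical
  choose t ht k c B hB using fun n => deg_witness (h n)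
  have h0 : CI (zAct G M k) {z | ∀ n (g : G), t n ≤ ((B n).image fun x => z n (g • x)).card} := by
    refine ⟨?_, ⟨c, hB⟩, ?_⟩
    · have : {z : ZZ M k | ∀ n (g : G), t n ≤ ((B n).image fun x => z n (g • x)).card} =
          ⋂ n, ⋂ g : G, {z | t n ≤ ((B n).image fun x => z n (g • x)).card} := by
        ext z
        simp
      rw [this]
      refine isClosed_iInter fun n => isClosed_iInter fun g => ?_
      have h1 := (isClopen_restr (κ := Fin (k n)) (B n) (fun f => t n ≤ (Finset.univ.image f).card)).1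
      simp only [image_attach_card] at h1
      have h2 : Continuous (fun z : ZZ M k => fun x => z n (g • x)) :=
        (cont_z n).comp ((zAct G M k).cont g)
      exact h1.preimage h2
    · intro g z hz n h
      have := hz n (g * h)
      simp only [mul_smul] at this
      exact this
  obtain ⟨S, hS1, hS2⟩ := exists_min _ h0
  refine ⟨t, k, S, ht, hS2, fun z hz n => ?_⟩
  have h1 := hS1 hz n 1
  refine h1.trans ?_
  rw [← Set.ncard_coe_finset]
  refine Set.ncard_le_ncard ?_ (Set.toFinite _)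
  intro y hy
  simp only [Finset.coe_image, mem_image, Finset.mem_coe, one_smul] at hy
  obtain ⟨x, -, rfl⟩ := hy
  exact ⟨x, rfl⟩

variable {t : ℕ → ℕ} {S : Set (ZZ M k)}

/-- invariant functions are determined by the colour -/
theorem Good.inv (h : Good G t S) {z : ZZ M k} (hz : z ∈ S) {n : ℕ} {κ : Type*} [TopologicalSpace κ]
    [DiscreteTopology κ] [Finite κ] (ψ : (Fin n → M) → κ) (hψ : ∀ (g : G) x, ψ (g • x) = ψ x)
    {a b : Fin n → M} (hab : z n a = z n b) : ψ a = ψ b :=
  det (h.deg n) h.mn (fun z => z n) (cont_z n) (fun _ _ _ => rfl) (fun _ => ψ) continuous_const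
    (fun g _ x => (hψ g x).symm) hz (h.card z hz n) hab

/-- colours of subtuples are determined by the colour -/
theorem Good.sub (h : Good G t S) {z : ZZ M k} (hz : z ∈ S) {n m : ℕ} (j : Fin m → Fin n)
    {a b : Fin n → M} (hab : z n a = z n b) : z m (a ∘ j) = z m (b ∘ j) :=
  det (h.deg n) h.mn (fun z => z n) (cont_z n) (fun _ _ _ => rfl) (fun z x => z m (x ∘ j))
    (continuous_pi fun x => cont_zx m (x ∘ j)) (fun _ _ _ => rfl) hz (h.card z hz n) hab

/-- the Ramsey property -/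
theorem Good.ramsey (h : Good G t S) {z : ZZ M k} (hz : z ∈ S) {n : ℕ} {κ : Type} [TopologicalSpace κ]
    [DiscreteTopology κ] [Finite κ] (χ : (Fin n → M) → κ) {U : Set (ZZ M k)} (hU : IsOpen U) (hzU : z ∈ U)
    (B : Finset (Fin n → M)) : ∃ g : G, (zAct G M k).a g z ∈ U ∧
      ∀ b ∈ B, ∀ b' ∈ B, z n b = z n b' → χ (g • b) = χ (g • b') := by
  classical
  set A2 := (zAct G M k).prod (colAct G (Fin n → M) κ) with hA2
  obtain ⟨S', h1, h2⟩ := exists_min A2 (oc_CI A2 (z, χ))
  have h3 : oc A2 (z, χ) ⊆ Prod.fst ⁻¹' S := by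
    refine closure_minimal ?_ (h.mn.closed.preimage continuous_fst)
    rintro _ ⟨g, rfl⟩
    exact h.mn.inv g z hz
  have h4 : Prod.fst '' S' = S := by
    refine h2.lift h.mn Prod.fst continuous_fst (fun _ _ => rfl) ?_
    rintro _ ⟨w, hw, rfl⟩
    exact h3 (h1 hw)
  obtain ⟨⟨z', χ'⟩, hw, hz'⟩ : z ∈ Prod.fst '' S' := by rw [h4]; exact hz
  change z' = z at hz'
  subst hz'
  have h5 : ∀ b b', z' n b = z' n b' → χ' b = χ' b' := fun b b' hb =>
    det (h.deg n) h2 (fun w => w.1 n) ((cont_z n).comp continuous_fst) (fun _ _ _ => rfl)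
      (fun w => w.2) continuous_snd (fun _ _ _ => rfl) hw (h.card z' hz n) hb
  have h6 : IsOpen {w : ZZ M k × ((Fin n → M) → κ) | w.1 ∈ U ∧ ∀ b ∈ B, w.2 b = χ' b} := by
    have : {w : ZZ M k × ((Fin n → M) → κ) | w.1 ∈ U ∧ ∀ b ∈ B, w.2 b = χ' b} =
        Prod.fst ⁻¹' U ∩ ⋂ b ∈ B, {w : ZZ M k × ((Fin n → M) → κ) | w.2 b = χ' b} := by
      ext w
      simp
    rw [this]
    refine (hU.preimage continuous_fst).inter (isOpen_biInter_finset fun b _ => ?_)
    have hc : Continuous (fun w : ZZ M k × ((Fin n → M) → κ) => w.2 b) := (continuous_apply b).comp continuous_snd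
    exact (isOpen_discrete {χ' b}).preimage hc
  obtain ⟨g, hg1, hg2⟩ := mem_oc (h1 hw) h6 ⟨hzU, fun b _ => rfl⟩
  refine ⟨g, hg1, fun b hb b' hb' hbb => ?_⟩
  have h7 := hg2 b hb
  have h8 := hg2 b' hb'
  change χ (g • b) = χ' b at h7
  change χ (g • b') = χ' b' at h8
  rw [h7, h8, h5 b b' hbb]

/-- the extension property -/
def EP (z : ZZ M k) : Prop :=
  ∀ (n : ℕ) (a b : Fin n → M), z n a = z n b → ∀ x : M, ∃ y : M,
    z (n + 1) (Fin.snoc (α := fun _ => M) a x) = z (n + 1) (Fin.snoc (α := fun _ => M) b y)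

theorem smul_snoc (g : G) {n : ℕ} (a : Fin n → M) (x : M) :
    g • (Fin.snoc (α := fun _ => M) a x : Fin (n + 1) → M) = Fin.snoc (α := fun _ => M) (g • a) (g • x) := by
  funext i
  refine Fin.lastCases ?_ (fun i => ?_) i
  · simp
  · simp

/-- generic points -/
theorem Good.exists_ep [Countable M] (h : Good G t S) : ∃ z ∈ S, EP z := by
  classical
  have : CompactSpace S := isCompact_iff_compactSpace.1 h.mn.closed.isCompact
  let I := Σ n, (Fin n → M) × Fin (k n) × Fin (k (n + 1))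
  let Comp : ∀ n, Fin (k n) → Fin (k (n + 1)) → Prop := fun n i j =>
    ∃ z ∈ S, ∃ (a : Fin n → M) (x : M), z n a = i ∧ z (n + 1) (Fin.snoc (α := fun _ => M) a x) = j
  let W : I → Set S := fun p => {z | Comp p.1 p.2.2.1 p.2.2.2 → (z.1 p.1 p.2.1 ≠ p.2.2.1 ∨
    ∃ y, z.1 (p.1 + 1) (Fin.snoc (α := fun _ => M) p.2.1 y) = p.2.2.2)}
  have hWo : ∀ p, IsOpen (W p) := by
    rintro ⟨n, b, i, j⟩
    by_cases hc : Comp n i j
    · have h1 : W ⟨n, b, i, j⟩ = Subtype.val ⁻¹' ({z : ZZ M k | z n b = i}ᶜ ∪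
          ⋃ y, {z : ZZ M k | z (n + 1) (Fin.snoc (α := fun _ => M) b y) = j}) := by
        ext z
        simp [W, hc]
      rw [h1]
      refine IsOpen.preimage continuous_subtype_val (IsOpen.union ?_ (isOpen_iUnion fun y => open_eq _ _ _))
      exact (((isClosed_discrete {i}).preimage (cont_zx (k := k) n b))).isOpen_compl
    · have h1 : W ⟨n, b, i, j⟩ = univ := by
        ext z
        simp [W, hc]
      rw [h1]
      exact isOpen_univ
  have hWd : ∀ p, Dense (W p) := by
    rintro ⟨n, b, i, j⟩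
    by_cases hc : Comp n i j
    · intro z0
      rw [mem_closure_iff]
      intro O hO hzO
      obtain ⟨O', hO', rfl⟩ := isOpen_induced_iff.1 hO
      by_cases hb : z0.1 n b = i
      · -- the pattern occurs in `z0`
        obtain ⟨z', hz', a', x', h1, h2⟩ := hc
        have h3 : z' ∈ oc (zAct G M k) z0.1 := by rw [h.mn.oc z0.2]; exact hz'
        obtain ⟨g, hg1, hg2⟩ := mem_oc h3 ((open_eq n a' i).inter
          (open_eq (n + 1) (Fin.snoc (α := fun _ => M) a' x') j)) ⟨h1, h2⟩
        change z0.1 n (g • a') = i at hg1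
        change z0.1 (n + 1) (g • (Fin.snoc (α := fun _ => M) a' x' : Fin (n + 1) → M)) = j at hg2
        rw [smul_snoc] at hg2
        set a0 := g • a' with ha0
        set x0 := g • x' with hx0
        obtain ⟨s, hs1, hs2⟩ := h.ramsey z0.2
          (fun a => decide (∃ y, z0.1 (n + 1) (Fin.snoc (α := fun _ => M) a y) = j))
          (hO'.inter (open_eq (n + 1) (Fin.snoc (α := fun _ => M) a0 x0) j)) ⟨hzO, hg2⟩ {b, a0}
        have h4 := hs1.2
        change z0.1 (n + 1) (s • (Fin.snoc (α := fun _ => M) a0 x0 : Fin (n + 1) → M)) = j at h4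
        rw [smul_snoc] at h4
        have h5 := hs2 b (by simp) a0 (by simp) (hb.trans hg1.symm)
        simp only [decide_eq_decide] at h5
        obtain ⟨y, hy⟩ := h5.2 ⟨_, h4⟩
        refine ⟨⟨(zAct G M k).a s z0.1, h.mn.inv s _ z0.2⟩, hs1.1, fun _ => Or.inr ⟨s⁻¹ • y, ?_⟩⟩
        change z0.1 (n + 1) (s • (Fin.snoc (α := fun _ => M) b (s⁻¹ • y) : Fin (n + 1) → M)) = j
        rw [smul_snoc, smul_inv_smul]
        exact hy
      · exact ⟨z0, hzO, fun _ => Or.inl hb⟩
    · have h1 : W ⟨n, b, i, j⟩ = univ := by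
        ext z
        simp [W, hc]
      rw [h1]
      exact dense_univ
  have hd : Dense (⋂ p, W p) := dense_iInter_of_isOpen hWo hWd
  obtain ⟨z1, hz1⟩ := h.mn.ne
  have : Nonempty S := ⟨⟨z1, hz1⟩⟩
  obtain ⟨z, hz⟩ := hd.nonempty
  rw [mem_iInter] at hz
  refine ⟨z.1, z.2, fun n a b hab x => ?_⟩
  have h1 := hz ⟨n, b, z.1 n a, z.1 (n + 1) (Fin.snoc (α := fun _ => M) a x)⟩ ⟨z.1, z.2, a, x, rfl, rfl⟩
  rcases h1 with h1 | ⟨y, hy⟩
  · exact absurd hab.symm h1
  · exact ⟨y, hy.symm⟩

end main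

end Pool.Agent.Lib.PRX
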