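import Pool.Agent.Lib.PRX.Ext
import Pool.Agent.Lib.PRX.Zucker
import Pool.Agent.Lib.PRX.Tree

/-!
# Finite Ramsey degrees give a precompact Ramsey expansion
-/

set_option autoImplicit false

namespace Pool.Agent.Lib.PRX

open FirstOrder FirstOrder.Language

/-- the language of the expansion -/
def LX (L : FirstOrder.Language.{0,0}) (k : ℕ → ℕ) : FirstOrder.Language.{0,0} :=
  ⟨fun _ => Empty, fun n => L.Relations n ⊕ Fin (k n)⟩

/-- the expansion by the colours of tuples -/
@[reducible] def strX (L : FirstOrder.Language.{0,0}) (M : Type) [L.Structure M] {k : ℕ → ℕ} (z : ZZ M k) :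
    (LX L k).Structure M where
  funMap f := Empty.elim f
  RelMap {n} R x := Sum.elim (fun R : L.Relations n => Structure.RelMap R x) (fun i : Fin (k n) => z n x = i) R

section

variable {L : FirstOrder.Language.{0,0}} {M : Type} [L.Structure M] {k t : ℕ → ℕ} {S : Set (ZZ M k)}
  {z : ZZ M k}

theorem LX_rel : ∀ n, IsEmpty ((LX L k).Functions n) := fun _ => inferInstanceAs (IsEmpty Empty)

theorem same_of_col (h : Good (AutG L M) t S) (hz : z ∈ S) {n : ℕ} {a b : Fin n → M} (hab : z n a = z n b) :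
    @Same (LX L k) M (strX L M z) _ a b := by
  classical
  let _ := strX L M z
  refine ⟨fun i j => ?_, fun m R v => ?_⟩
  · have h1 := h.inv hz (fun x => decide (x i = x j)) (fun g x => by
      simp only [Pi.smul_apply, decide_eq_decide]
      exact (MulAction.injective g).eq_iff) hab
    simpa using h1
  · match R with
    | Sum.inl R =>
      have h1 := h.inv hz (fun x => decide (Structure.RelMap R (fun i => x (v i)))) (fun g x => by
        simp only [decide_eq_decide]
        obtain ⟨σ, hσ⟩ := exists_aut g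
        have h2 := σ.map_rel R (fun i => x (v i))
        rw [← h2]
        have h3 : (fun i => (g • x) (v i)) = (σ ∘ fun i => x (v i)) := by
          funext i
          simp [hσ]
        rw [h3]) hab
      simp only [decide_eq_decide] at h1
      exact h1
    | Sum.inr c =>
      have h1 := h.sub hz v hab
      change z m (fun i => a (v i)) = c ↔ z m (fun i => b (v i)) = c
      have h2 : z m (fun i => a (v i)) = z m (fun i => b (v i)) := h1
      rw [h2]

theorem col_of_same {n : ℕ} {a b : Fin n → M} (hab : @Same (LX L k) M (strX L M z) _ a b) : z n a = z n b := by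
  let _ := strX L M z
  have h1 := hab.rel n (Sum.inr (z n a)) id
  have h2 : z n a = z n a ↔ z n b = z n a := h1
  exact (h2.1 rfl).symm

theorem uh_X [Countable M] (h : Good (AutG L M) t S) (hz : z ∈ S) (hep : EP z) :
    @IsUltrahomogeneous (LX L k) M (strX L M z) := by
  let _ := strX L M z
  refine uh_of_ext LX_rel fun n a b hab x => ?_
  obtain ⟨y, hy⟩ := hep n a b (col_of_same hab) x
  exact ⟨y, same_of_col h hz hy⟩

theorem orbits_X [Countable M] (h : Good (AutG L M) t S) (hz : z ∈ S) (hep : EP z) (n : ℕ) :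
    ∃ F : Finset (Fin n → M), ∀ x : Fin n → M, ∃ y ∈ F,
      ∃ σ : @FirstOrder.Language.Equiv (LX L k) M M (strX L M z) (strX L M z), ∀ i, σ (y i) = x i := by
  classical
  let _ := strX L M z
  have hs : ∀ c : Set.range (z n), ∃ x, z n x = c := fun c => c.2
  choose s hs using hs
  refine ⟨Finset.univ.image s, fun x => ⟨s ⟨z n x, x, rfl⟩, Finset.mem_image_of_mem _ (Finset.mem_univ _), ?_⟩⟩
  have h1 := same_of_col h hz (hs ⟨z n x, x, rfl⟩)
  exact ext_of_data LX_rel (uh_X h hz hep) _ _ h1.inj h1.rel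

theorem ramsey_inf (h : Good (AutG L M) t S) (hz : z ∈ S)
    (A B : @Substructure (LX L k) M (strX L M z))
    (hA : @Substructure.FG (LX L k) M (strX L M z) A) (hB : @Substructure.FG (LX L k) M (strX L M z) B) (r : ℕ) (hr : 0 < r)
    (c : letI := strX L M z; (A ↪[LX L k] M) → Fin r) :
    letI := strX L M z; ∃ (g : B ↪[LX L k] M) (i : Fin r), ∀ f : A ↪[LX L k] B, c (g.comp f) = i := by
  classical
  let _ := strX L M z
  obtain ⟨n, a, ha⟩ := exists_enum LX_rel A hA
  obtain ⟨m, b, hb⟩ := exists_enum LX_rel B hB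
  have hAmem : ∀ x, x ∈ A ↔ ∃ i, (a i : M) = x := fun x =>
    ⟨fun hx => by obtain ⟨i, hi⟩ := ha ⟨x, hx⟩; exact ⟨i, by rw [hi]⟩, by rintro ⟨i, rfl⟩; exact (a i).2⟩
  have hBmem : ∀ x, x ∈ B ↔ ∃ i, (b i : M) = x := fun x =>
    ⟨fun hx => by obtain ⟨i, hi⟩ := hb ⟨x, hx⟩; exact ⟨i, by rw [hi]⟩, by rintro ⟨i, rfl⟩; exact (b i).2⟩
  -- the embedding of `A` given by a tuple
  have hemb : ∀ x : Fin n → M, z n (fun i => (a i : M)) = z n x → ∃ f : A ↪[LX L k] M, ∀ i, f (a i) = x i := by
    intro x hx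
    obtain ⟨f, hf⟩ := (same_of_col h hz hx).exists_emb LX_rel A hAmem
    exact ⟨f, fun i => hf i (a i).2⟩
  choose emb hemb using hemb
  let χ : (Fin n → M) → Fin r := fun x => if hx : z n (fun i => (a i : M)) = z n x then c (emb x hx) else ⟨0, hr⟩
  have hfinB : Finite B := by
    have : (LX L k).IsRelational := LX_rel
    exact Substructure.FG.finite hB
  have hfin : {x : Fin n → M | ∀ i, x i ∈ (B : Set M)}.Finite :=
    Set.Finite.pi' fun _ => Set.toFinite (B : Set M)
  obtain ⟨g, hg1, hg2⟩ := h.ramsey hz χ (open_eq m (fun i => (b i : M)) (z m fun i => (b i : M))) rfl hfin.toFinset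
  change z m (g • fun i => (b i : M)) = z m (fun i => (b i : M)) at hg1
  obtain ⟨gB, hgB⟩ := (same_of_col h hz hg1.symm).exists_emb LX_rel B hBmem
  have hgB' : ∀ y : B, gB y = g • (y : M) := by
    intro y
    obtain ⟨i, rfl⟩ := hb y
    exact hgB i (b i).2
  have hxf : ∀ f : A ↪[LX L k] B, z n (fun i => (a i : M)) = z n (fun i => (f (a i) : M)) := fun f =>
    col_of_same (same_of_emb ((Substructure.subtype B).comp f) a)
  have hxg : ∀ f : A ↪[LX L k] B, z n (fun i => (f (a i) : M)) = z n (g • fun i => (f (a i) : M)) := by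
    intro f
    choose j hj using fun i => hb (f (a i))
    have h1 : (fun i => (f (a i) : M)) = (fun i => (b i : M)) ∘ j := by
      funext i
      simp [hj]
    have h2 : (g • fun i => (f (a i) : M)) = (g • fun i => (b i : M)) ∘ j := by
      rw [h1]
      rfl
    rw [h1] at *
    rw [h2]
    exact h.sub hz j hg1.symm
  have hval : ∀ f : A ↪[LX L k] B, c (gB.comp f) = χ (g • fun i => (f (a i) : M)) := by
    intro f
    have h1 : z n (fun i => (a i : M)) = z n (g • fun i => (f (a i) : M)) := (hxf f).trans (hxg f)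
    have h2 : χ (g • fun i => (f (a i) : M)) = c (emb _ h1) := dif_pos h1
    rw [h2]
    congr 1
    ext x
    obtain ⟨i, rfl⟩ := ha x
    rw [hemb]
    exact hgB' _
  by_cases hne : Nonempty (A ↪[LX L k] B)
  · obtain ⟨f0⟩ := hne
    refine ⟨gB, χ (g • fun i => (f0 (a i) : M)), fun f => ?_⟩
    rw [hval]
    refine hg2 _ ?_ _ ?_ ?_
    · rw [Set.Finite.mem_toFinset]
      exact fun i => (f (a i)).2
    · rw [Set.Finite.mem_toFinset]
      exact fun i => (f0 (a i)).2
    · rw [← hxf, ← hxf]
  · exact ⟨gB, ⟨0, hr⟩, fun f => (hne ⟨f⟩).elim⟩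

theorem ramsey_fin (h : Good (AutG L M) t S) (hz : z ∈ S)
    (A B : @Substructure (LX L k) M (strX L M z))
    (hA : @Substructure.FG (LX L k) M (strX L M z) A) (hB : @Substructure.FG (LX L k) M (strX L M z) B) (r : ℕ) :
    letI := strX L M z; ∃ C : (LX L k).Substructure M, C.FG ∧ ∀ c : (A ↪[LX L k] C) → Fin r,
      ∃ (g : B ↪[LX L k] C) (i : Fin r), ∀ f : A ↪[LX L k] B, c (g.comp f) = i := by
  classical
  let _ := strX L M z
  rcases Nat.eq_zero_or_pos r with rfl | hr
  · exact ⟨A, hA, fun c => (c (FirstOrder.Language.Embedding.refl _ _)).elim0⟩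
  by_contra hcon
  push Not at hcon
  have hrel : (LX L k).IsRelational := LX_rel
  let C : Finset M → (LX L k).Substructure M := fun s => Substructure.closure _ (s : Set M)
  have hCmem : ∀ s x, x ∈ C s ↔ x ∈ s := fun s x => by
    simp only [C]
    rw [Substructure.mem_closure_iff_of_isRelational]
    rfl
  have hC : ∀ s, (C s).FG := fun s => Substructure.fg_closure s.finite_toSet
  choose c hc using fun s => hcon (C s) (hC s)
  have hfinA : Finite A := Substructure.FG.finite hA
  have hfinB : Finite B := Substructure.FG.finite hB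
  let 𝒰 : Ultrafilter (Finset M) := Ultrafilter.of Filter.atTop
  have h𝒰 : ∀ s : Finset M, ∀ᶠ s' in (𝒰 : Filter (Finset M)), s ⊆ s' := fun s =>
    Ultrafilter.of_le _ (Filter.eventually_ge_atTop s)
  let cc : (A ↪[LX L k] M) → Finset M → Fin r := fun e s =>
    if he : ∀ x, e x ∈ C s then c s (e.codRestrict (C s) he) else ⟨0, hr⟩
  obtain ⟨g, i0, hg⟩ := ramsey_inf h hz A B hA hB r hr (fun e => lm 𝒰 (cc e))
  have hfinAB : Finite (A ↪[LX L k] B) :=
    Finite.of_injective (fun f : A ↪[LX L k] B => (f : A → B)) DFunLike.coe_injective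
  have h1 : ∀ᶠ s in (𝒰 : Filter (Finset M)), ∀ f : A ↪[LX L k] B, cc (g.comp f) s = i0 := by
    rw [Filter.eventually_all]
    intro f
    rw [← hg f]
    exact lm_spec _ _
  have h2 : ∀ᶠ s in (𝒰 : Filter (Finset M)), ∀ y : B, g y ∈ C s := by
    rw [Filter.eventually_all]
    intro y
    filter_upwards [h𝒰 {g y}] with s hs
    rw [hCmem]
    exact hs (Finset.mem_singleton_self _)
  obtain ⟨s, hs1, hs2⟩ := (h1.and h2).exists
  obtain ⟨f, hf⟩ := hc s (g.codRestrict (C s) hs2) i0
  apply hf
  rw [← hs1 f]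
  have h3 : ∀ x, (g.comp f) x ∈ C s := fun x => hs2 _
  have h4 : cc (g.comp f) s = c s ((g.comp f).codRestrict (C s) h3) := dif_pos h3
  rw [h4]
  rfl

end

/-- A structure all of whose sets of tuples have finite Ramsey degrees has a precompact Ramsey expansion. -/
theorem exists_expansion {L : FirstOrder.Language.{0,0}} (hL : ∀ n, IsEmpty (L.Functions n)) {M : Type}
    [L.Structure M] [Countable M] (hdeg : ∀ n, ∃ d, Deg (AutG L M) (Fin n → M) d) :
    ∃ (L' : FirstOrder.Language.{0,0}) (_ : ∀ n, IsEmpty (L'.Functions n)) (φ : L →ᴸ L')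
      (_ : L'.Structure M),
      φ.IsExpansionOn M ∧ L'.IsUltrahomogeneous M ∧
      (∀ n : ℕ, ∃ F : Finset (Fin n → M), ∀ x : Fin n → M,
        ∃ y ∈ F, ∃ σ : M ≃[L'] M, ∀ i, σ (y i) = x i) ∧
      (∀ (A B : L'.Substructure M), A.FG → B.FG → ∀ k : ℕ,
        ∃ C : L'.Substructure M, C.FG ∧ ∀ c : (A ↪[L'] C) → Fin k,
          ∃ g : B ↪[L'] C, ∃ i : Fin k, ∀ f : A ↪[L'] B, c (g.comp f) = i) := by
  obtain ⟨t, k, S, h⟩ := exists_good hdeg
  obtain ⟨z, hz, hep⟩ := h.exists_ep
  refine ⟨LX L k, LX_rel, ⟨fun {n} f => (hL n).elim f, fun {n} R => Sum.inl R⟩, strX L M z, ?_, uh_X h hz hep,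
    orbits_X h hz hep, fun A B hA hB r => ramsey_fin h hz A B hA hB r⟩
  let _ := strX L M z
  exact { map_onFunction := fun {n} f x => (hL n).elim f
          map_onRelation := fun {n} R x => rfl }

end Pool.Agent.Lib.PRX
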