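import Pool.Agent.Lib.PRX.Hom

/-!
# Ultrahomogeneity from one-point extensions of tuples
-/

set_option autoImplicit false

namespace Pool.Agent.Lib.PRX

open FirstOrder FirstOrder.Language

variable {L : FirstOrder.Language.{0,0}} {M : Type} [L.Structure M]

/-- two tuples have the same quantifier-free data -/
structure Same (L : FirstOrder.Language.{0,0}) {M : Type} [L.Structure M] {ι : Type} (a b : ι → M) : Prop where
  inj : ∀ i j, a i = a j ↔ b i = b j
  rel : ∀ (n : ℕ) (R : L.Relations n) (v : Fin n → ι),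
      Structure.RelMap R (fun k => a (v k)) ↔ Structure.RelMap R (fun k => b (v k))

theorem Same.symm {ι : Type} {a b : ι → M} (h : Same L a b) : Same L b a :=
  ⟨fun i j => (h.inj i j).symm, fun n R v => (h.rel n R v).symm⟩

theorem Same.comp {ι κ : Type} {a b : ι → M} (h : Same L a b) (s : κ → ι) : Same L (a ∘ s) (b ∘ s) :=
  ⟨fun i j => h.inj _ _, fun n R v => h.rel n R (s ∘ v)⟩

/-- the embedding of the range of a tuple given by a tuple with the same data -/
theorem Same.exists_emb (hL : ∀ n, IsEmpty (L.Functions n)) {ι : Type} {a b : ι → M} (h : Same L a b)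
    (S : L.Substructure M) (hS : ∀ x, x ∈ S ↔ ∃ i, a i = x) :
    ∃ f : S ↪[L] M, ∀ i (hi : a i ∈ S), f ⟨a i, hi⟩ = b i := by
  choose ix hix using fun x : S => (hS x.1).1 x.2
  have hfa : ∀ (x : S) (i : ι), a i = x.1 → b (ix x) = b i := by
    intro x i hi
    rw [← h.inj, hix x, hi]
  refine ⟨{ toFun := fun x => b (ix x), inj' := ?_, map_fun' := ?_, map_rel' := ?_ }, fun i hi => hfa _ i rfl⟩
  · intro x y hxy
    have := (h.inj _ _).2 hxy
    rw [hix, hix] at this
    exact Subtype.ext this
  · intro n F x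
    exact (hL n).elim F
  · intro n R x
    have h1 := h.rel n R (fun k => ix (x k))
    have h2 : (fun k => a (ix (x k))) = fun k => ((x k : S) : M) := by
      funext k; exact hix (x k)
    rw [h2] at h1
    exact h1.symm

theorem same_of_emb {S : L.Substructure M} (f : S ↪[L] M) {ι : Type} (a : ι → S) :
    Same L (fun i => (a i : M)) (fun i => f (a i)) := by
  refine ⟨fun i j => ?_, fun n R v => ?_⟩
  · rw [f.injective.eq_iff, Subtype.ext_iff]
  · have h1 := f.map_rel R (fun k => a (v k))
    exact h1.symm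

theorem exists_enum (hL : ∀ n, IsEmpty (L.Functions n)) (S : L.Substructure M) (hS : S.FG) :
    ∃ (n : ℕ) (a : Fin n → S), Function.Surjective a := by
  have : L.IsRelational := hL
  have hf : Finite S := Substructure.FG.finite hS
  obtain ⟨n, ⟨e⟩⟩ := Finite.exists_equiv_fin S
  exact ⟨n, e.symm, e.symm.surjective⟩

/-- Ultrahomogeneity from one-point extensions. -/
theorem uh_of_ext (hL : ∀ n, IsEmpty (L.Functions n)) [Countable M]
    (h : ∀ (n : ℕ) (a b : Fin n → M), Same L a b → ∀ x, ∃ y,
      Same L (Fin.snoc (α := fun _ => M) a x : Fin (n + 1) → M) (Fin.snoc (α := fun _ => M) b y)) :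
    L.IsUltrahomogeneous M := by
  have : L.IsRelational := hL
  rw [isUltrahomogeneous_iff_IsExtensionPair Structure.cg_of_countable]
  rintro ⟨f, hf⟩ m
  obtain ⟨n, a, ha⟩ := exists_enum hL f.dom hf
  have h1 : Same L (fun i => (a i : M)) (fun i => (f.toEquiv (a i) : M)) :=
    same_of_emb ((Substructure.subtype f.cod).comp f.toEquiv.toEmbedding) a
  obtain ⟨y, hy⟩ := h n _ _ h1 m
  set S : L.Substructure M := Substructure.closure L (insert m (f.dom : Set M)) with hS
  have hmem : ∀ x, x ∈ S ↔ ∃ i, (Fin.snoc (α := fun _ => M) (fun i => (a i : M)) m : Fin (n + 1) → M) i = x := by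
    intro x
    rw [hS, Substructure.mem_closure_iff_of_isRelational]
    constructor
    · rintro (rfl | hx)
      · exact ⟨Fin.last n, by simp⟩
      · obtain ⟨i, hi⟩ := ha ⟨x, hx⟩
        exact ⟨i.castSucc, by simp [hi]⟩
    · rintro ⟨i, rfl⟩
      refine Fin.lastCases ?_ (fun i => ?_) i
      · simp
      · rw [Fin.snoc_castSucc]
        exact Set.mem_insert_of_mem _ (a i).2
  obtain ⟨g, hg⟩ := hy.exists_emb hL S hmem
  have hSfg : S.FG := by
    apply Substructure.fg_closure
    have hfin : Finite f.dom := Substructure.FG.finite hf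
    exact (Set.toFinite (f.dom : Set M)).insert m
  have hle : f.dom ≤ S := fun x hx => by
    rw [hmem]
    obtain ⟨i, hi⟩ := ha ⟨x, hx⟩
    exact ⟨i.castSucc, by simp [hi]⟩
  refine ⟨⟨⟨S, g.toHom.range, g.equivRange⟩, hSfg⟩, (hmem m).2 ⟨Fin.last n, by simp⟩, hle, ?_⟩
  ext x
  obtain ⟨i, hi⟩ := ha x
  have h2 : (Fin.snoc (α := fun _ => M) (fun i => (a i : M)) m : Fin (n + 1) → M) i.castSucc = x := by simp [hi]
  have h3 := hg i.castSucc ((hmem _).2 ⟨_, rfl⟩)
  simp only [Fin.snoc_castSucc] at h3
  simp only [Embedding.comp_apply, Equiv.coe_toEmbedding, Substructure.coe_subtype, Embedding.equivRange_apply]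
  have h4 : Substructure.inclusion hle x = ⟨(a i : M), hle (a i).2⟩ := by
    apply Subtype.ext
    rw [hi]
    rfl
  rw [h4]
  rw [← hi]
  exact h3

end Pool.Agent.Lib.PRX
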