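import Mathlib

/-!
# Minimal closed invariant sets
-/

set_option autoImplicit false

namespace Pool.Agent.Lib.PRX

open Set Topology

variable {G : Type*} [Group G]

/-- a right action by continuous maps -/
structure RAct (G : Type*) [Group G] (Z : Type*) [TopologicalSpace Z] where
  /-- the action -/
  a : G → Z → Z
  cont : ∀ g, Continuous (a g)
  one : ∀ z, a 1 z = z
  mul : ∀ g h z, a g (a h z) = a (h * g) z

variable {Z : Type*} [TopologicalSpace Z] {Z' : Type*} [TopologicalSpace Z']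

/-- closed, nonempty, invariant -/
structure CI (A : RAct G Z) (S : Set Z) : Prop where
  closed : IsClosed S
  ne : S.Nonempty
  inv : ∀ g z, z ∈ S → A.a g z ∈ S

/-- minimal closed, nonempty, invariant -/
structure Mn (A : RAct G Z) (S : Set Z) : Prop extends CI A S where
  min : ∀ S' ⊆ S, CI A S' → S' = S

/-- every closed invariant set contains a minimal one -/
theorem exists_min [CompactSpace Z] (A : RAct G Z) {S : Set Z} (hS : CI A S) : ∃ S' ⊆ S, Mn A S' := by
  obtain ⟨S', h1, h2⟩ := zorn_superset_nonempty {T | CI A T} (fun c hc hch hne => by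
    refine ⟨⋂₀ c, ⟨isClosed_sInter fun T hT => (hc hT).closed, ?_, ?_⟩, fun s hs => sInter_subset_of_mem hs⟩
    · have : Nonempty c := hne.to_subtype
      rw [sInter_eq_iInter]
      refine IsCompact.nonempty_iInter_of_directed_nonempty_isCompact_isClosed _ ?_ ?_ ?_ ?_
      · intro s t
        rcases hch.total s.2 t.2 with h | h
        · exact ⟨s, subset_rfl, h⟩
        · exact ⟨t, h, subset_rfl⟩
      · exact fun s => (hc s.2).ne
      · exact fun s => (hc s.2).closed.isCompact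
      · exact fun s => (hc s.2).closed
    · intro g z hz T hT
      exact (hc hT).inv g z (hz T hT)) S hS
  refine ⟨S', h1, h2.prop, fun S'' h3 h4 => ?_⟩
  exact subset_antisymm h3 (h2.le_of_le h4 h3)

/-- recurrence -/
theorem Mn.recur [CompactSpace Z] {A : RAct G Z} {S : Set Z} (hS : Mn A S) {U : Set Z} (hU : IsOpen U)
    (hne : (U ∩ S).Nonempty) : ∃ T : Finset G, ∀ z ∈ S, ∃ g ∈ T, A.a g z ∈ U := by
  have h1 : S ⊆ ⋃ g : G, A.a g ⁻¹' U := by
    by_contra hcon
    obtain ⟨z, hz, hz'⟩ := not_subset.1 hcon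
    have h2 : CI A {z | z ∈ S ∧ ∀ g, A.a g z ∉ U} := by
      refine ⟨?_, ⟨z, hz, fun g hg => hz' (mem_iUnion.2 ⟨g, hg⟩)⟩, ?_⟩
      · have : {z | z ∈ S ∧ ∀ g, A.a g z ∉ U} = S ∩ ⋂ g, (A.a g ⁻¹' U)ᶜ := by
          ext z
          simp
        rw [this]
        exact hS.closed.inter (isClosed_iInter fun g => (hU.preimage (A.cont g)).isClosed_compl)
      · rintro g z ⟨h3, h4⟩
        refine ⟨hS.inv g z h3, fun h => ?_⟩
        rw [A.mul]
        exact h4 _
    have h3 := hS.min _ (fun z hz => hz.1) h2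
    obtain ⟨w, hw1, hw2⟩ := hne
    rw [← h3] at hw2
    have := hw2.2 1
    rw [A.one] at this
    exact this hw1
  obtain ⟨T, hT⟩ := hS.closed.isCompact.elim_finite_subcover _ (fun g => hU.preimage (A.cont g)) h1
  refine ⟨T, fun z hz => ?_⟩
  have := hT hz
  simp only [mem_iUnion] at this
  obtain ⟨g, hg, h⟩ := this
  exact ⟨g, hg, h⟩

/-- orbit closure -/
def oc (A : RAct G Z) (z : Z) : Set Z := closure (range fun g => A.a g z)

theorem oc_CI (A : RAct G Z) (z : Z) : CI A (oc A z) := by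
  refine ⟨isClosed_closure, ⟨z, subset_closure ⟨1, A.one z⟩⟩, fun g w hw => ?_⟩
  have h1 : A.a g '' closure (range fun g => A.a g z) ⊆ closure (A.a g '' range fun g => A.a g z) :=
    image_closure_subset_closure_image (A.cont g)
  refine closure_mono ?_ (h1 ⟨w, hw, rfl⟩)
  rintro _ ⟨_, ⟨h, rfl⟩, rfl⟩
  exact ⟨h * g, (A.mul g h z).symm⟩

theorem oc_sub {A : RAct G Z} {S : Set Z} (hS : CI A S) {z : Z} (hz : z ∈ S) : oc A z ⊆ S :=
  closure_minimal (by rintro _ ⟨g, rfl⟩; exact hS.inv g z hz) hS.closed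

theorem Mn.oc {A : RAct G Z} {S : Set Z} (hS : Mn A S) {z : Z} (hz : z ∈ S) : oc A z = S :=
  hS.min _ (oc_sub hS.toCI hz) (oc_CI A z)

/-- an element of the orbit closure is approximated on open sets -/
theorem mem_oc {A : RAct G Z} {z w : Z} (hw : w ∈ oc A z) {U : Set Z} (hU : IsOpen U) (hwU : w ∈ U) :
    ∃ g, A.a g z ∈ U := by
  obtain ⟨x, hx1, g, rfl⟩ := mem_closure_iff.1 hw U hU hwU
  exact ⟨g, hx1⟩

/-- factors of minimal sets are minimal -/
theorem Mn.map [CompactSpace Z] [T2Space Z'] {A : RAct G Z} {A' : RAct G Z'} {S : Set Z} (hS : Mn A S)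
    (f : Z → Z') (hf : Continuous f) (hfe : ∀ g z, f (A.a g z) = A'.a g (f z)) : Mn A' (f '' S) := by
  refine ⟨⟨(hS.closed.isCompact.image hf).isClosed, hS.ne.image f, ?_⟩, ?_⟩
  · rintro g _ ⟨z, hz, rfl⟩
    exact ⟨A.a g z, hS.inv g z hz, hfe g z⟩
  · intro S' h1 h2
    refine subset_antisymm h1 ?_
    have h3 : CI A (S ∩ f ⁻¹' S') := by
      refine ⟨hS.closed.inter (h2.closed.preimage hf), ?_, ?_⟩
      · obtain ⟨w, hw⟩ := h2.ne
        obtain ⟨z, hz, rfl⟩ := h1 hw
        exact ⟨z, hz, hw⟩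
      · rintro g z ⟨hz1, hz2⟩
        refine ⟨hS.inv g z hz1, ?_⟩
        rw [mem_preimage, hfe]
        exact h2.inv g _ hz2
    have h4 := hS.min _ inter_subset_left h3
    rw [← h4]
    rintro _ ⟨z, ⟨-, hz⟩, rfl⟩
    exact hz

/-- a minimal set inside the preimage of a minimal set maps onto it -/
theorem Mn.lift [CompactSpace Z] [T2Space Z'] {A : RAct G Z} {A' : RAct G Z'} {S : Set Z} (hS : Mn A S)
    {S' : Set Z'} (hS' : Mn A' S')
    (f : Z → Z') (hf : Continuous f) (hfe : ∀ g z, f (A.a g z) = A'.a g (f z)) (hsub : f '' S ⊆ S') :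
    f '' S = S' :=
  hS'.min _ hsub (hS.map f hf hfe).toCI

end Pool.Agent.Lib.PRX
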