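import Mathlib

set_option autoImplicit false

namespace Pool.Agent.Lib.PRX

open FirstOrder FirstOrder.Language

/-- In an ultrahomogeneous relational structure two finite tuples with the same quantifier-free data are conjugate. -/
theorem ext_of_data {L : FirstOrder.Language.{0,0}} (hL : ∀ n, IsEmpty (L.Functions n))
    {M : Type*} [L.Structure M] (hM : L.IsUltrahomogeneous M)
    {ι : Type*} [Finite ι] (a b : ι → M)
    (hinj : ∀ i j, a i = a j ↔ b i = b j)
    (hrel : ∀ (n : ℕ) (R : L.Relations n) (v : Fin n → ι),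
      Structure.RelMap R (fun k => a (v k)) ↔ Structure.RelMap R (fun k => b (v k))) :
    ∃ σ : M ≃[L] M, ∀ i, σ (a i) = b i := by
  classical
  have : L.IsRelational := hL
  set S : L.Substructure M := Substructure.closure L (Set.range a) with hS
  have hSfg : S.FG := Substructure.fg_closure (Set.finite_range a)
  have hmem : ∀ x : M, x ∈ S ↔ ∃ i, a i = x := by
    intro x
    rw [hS, Substructure.mem_closure_iff_of_isRelational]
    rfl
  choose ix hix using fun x : S => (hmem x.1).1 x.2
  have hfa : ∀ (x : S) (i : ι), a i = x.1 → b (ix x) = b i := by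
    intro x i hi
    rw [← hinj, hix x, hi]
  let f : S ↪[L] M :=
    { toFun := fun x => b (ix x)
      inj' := by
        intro x y hxy
        have := (hinj _ _).2 hxy
        rw [hix, hix] at this
        exact Subtype.ext this
      map_fun' := by
        intro n F x
        exact (hL n).elim F
      map_rel' := by
        intro n R x
        have h1 := hrel n R (fun k => ix (x k))
        have h2 : (fun k => a (ix (x k))) = fun k => ((x k : S) : M) := by
          funext k; exact hix (x k)
        rw [h2] at h1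
        exact h1.symm }
  obtain ⟨g, hg⟩ := hM S hSfg f
  refine ⟨g, fun i => ?_⟩
  have hi : a i ∈ S := (hmem _).2 ⟨i, rfl⟩
  have h3 : f ⟨a i, hi⟩ = g (a i) := by
    rw [hg]; rfl
  rw [← h3]
  exact hfa ⟨a i, hi⟩ i rfl

/-- the automorphism group as a permutation group -/
def AutG (L : FirstOrder.Language.{0,0}) (M : Type*) [L.Structure M] : Subgroup (Equiv.Perm M) where
  carrier := {π | ∃ σ : M ≃[L] M, ∀ x, σ x = π x}
  mul_mem' := by
    rintro a b ⟨σ, hσ⟩ ⟨τ, hτ⟩
    exact ⟨σ.comp τ, fun x => by simp [hσ, hτ]⟩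
  one_mem' := ⟨FirstOrder.Language.Equiv.refl L M, fun x => rfl⟩
  inv_mem' := by
    rintro a ⟨σ, hσ⟩
    refine ⟨σ.symm, fun x => ?_⟩
    rw [Equiv.Perm.inv_def, Equiv.eq_symm_apply, ← hσ]
    exact σ.apply_symm_apply x

/-- an automorphism as an element of the group -/
def toG {L : FirstOrder.Language.{0,0}} {M : Type*} [L.Structure M] (σ : M ≃[L] M) : AutG L M :=
  ⟨σ.toEquiv, σ, fun _ => rfl⟩

theorem toG_smul {L : FirstOrder.Language.{0,0}} {M : Type*} [L.Structure M] (σ : M ≃[L] M) (x : M) :
    toG σ • x = σ x := rfl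

theorem exists_aut {L : FirstOrder.Language.{0,0}} {M : Type*} [L.Structure M] (g : AutG L M) :
    ∃ σ : M ≃[L] M, ∀ x, σ x = g • x := g.2

/-- Finite tuples fall into finitely many orbits. -/
theorem exists_finite_data {L : FirstOrder.Language.{0,0}} (hL : ∀ n, IsEmpty (L.Functions n))
    (hfin : Finite (Σ n, L.Relations n)) {M : Type*} [L.Structure M] (hM : L.IsUltrahomogeneous M)
    (ι : Type) [Finite ι] :
    ∃ (D : Type) (_ : Finite D) (f : (ι → M) → D), ∀ a b, f a = f b → ∃ σ : M ≃[L] M, ∀ i, σ (a i) = b i := by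
  refine ⟨(ι → ι → Prop) × ((r : Σ n, L.Relations n) → (Fin r.1 → ι) → Prop), inferInstance,
    fun a => (fun i j => a i = a j, fun r v => Structure.RelMap r.2 (fun k => a (v k))), fun a b hab => ?_⟩
  apply ext_of_data hL hM
  · intro i j
    have := congrFun (congrFun (congrArg Prod.fst hab) i) j
    exact iff_of_eq this
  · intro n R v
    have := congrFun (congrFun (congrArg Prod.snd hab) ⟨n, R⟩) v
    exact iff_of_eq this

/-- the orbits of pairs -/
def pairSetoid (L : FirstOrder.Language.{0,0}) (M : Type*) [L.Structure M] : Setoid (M × M) where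
  r p p' := ∃ σ : M ≃[L] M, σ p.1 = p'.1 ∧ σ p.2 = p'.2
  iseqv :=
    { refl := fun p => ⟨FirstOrder.Language.Equiv.refl L M, rfl, rfl⟩
      symm := by
        rintro p p' ⟨σ, h1, h2⟩
        exact ⟨σ.symm, by rw [← h1, σ.symm_apply_apply], by rw [← h2, σ.symm_apply_apply]⟩
      trans := by
        rintro p p' p'' ⟨σ, h1, h2⟩ ⟨τ, h3, h4⟩
        exact ⟨τ.comp σ, by simp [h1, h3], by simp [h2, h4]⟩ }

/-- the type of a pair -/
def pq (L : FirstOrder.Language.{0,0}) {M : Type*} [L.Structure M] (x y : M) : Quotient (pairSetoid L M) :=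
  Quotient.mk _ (x, y)

theorem pq_eq {L : FirstOrder.Language.{0,0}} {M : Type*} [L.Structure M] (x y x' y' : M) :
    pq L x y = pq L x' y' ↔ ∃ σ : M ≃[L] M, σ x = x' ∧ σ y = y' := Quotient.eq

theorem finite_pairs {L : FirstOrder.Language.{0,0}} (hL : ∀ n, IsEmpty (L.Functions n))
    (hfin : Finite (Σ n, L.Relations n)) {M : Type*} [L.Structure M] (hM : L.IsUltrahomogeneous M) :
    Finite (Quotient (pairSetoid L M)) := by
  obtain ⟨D, hD, f, hf⟩ := exists_finite_data hL hfin hM (Fin 2)
  let F : Quotient (pairSetoid L M) → D := fun t => f ![t.out.1, t.out.2]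
  refine Finite.of_injective F fun t t' htt => ?_
  obtain ⟨σ, hσ⟩ := hf _ _ htt
  rw [← Quotient.out_eq t, ← Quotient.out_eq t']
  exact Quotient.sound ⟨σ, hσ 0, hσ 1⟩

/-- In a binary ultrahomogeneous structure finite tuples with the same pair types are conjugate. -/
theorem binary_hom {L : FirstOrder.Language.{0,0}} (hL : ∀ n, IsEmpty (L.Functions n))
    (h2 : ∀ n, 3 ≤ n → IsEmpty (L.Relations n)) {M : Type*} [L.Structure M] (hM : L.IsUltrahomogeneous M)
    (ι : Type) [Finite ι] (a b : ι → M) (hab : ∀ i j, pq L (a i) (a j) = pq L (b i) (b j)) :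
    ∃ σ : M ≃[L] M, ∀ i, σ (a i) = b i := by
  apply ext_of_data hL hM
  · intro i j
    obtain ⟨σ, h1, h2⟩ := (pq_eq _ _ _ _).1 (hab i j)
    rw [← h1, ← h2, σ.injective.eq_iff]
  · intro n R v
    have key : ∀ σ : M ≃[L] M, (∀ k, σ (a (v k)) = b (v k)) →
        (Structure.RelMap R (fun k => a (v k)) ↔ Structure.RelMap R (fun k => b (v k))) := by
      intro σ hσ
      have h3 := σ.map_rel R (fun k => a (v k))
      have h4 : (σ ∘ fun k => a (v k)) = fun k => b (v k) := funext hσ
      rw [h4] at h3
      exact h3.symm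
    match n, R, v, key with
    | 0, R, v, key => exact key (FirstOrder.Language.Equiv.refl L M) (fun k => k.elim0)
    | 1, R, v, key =>
      obtain ⟨σ, h1, -⟩ := (pq_eq _ _ _ _).1 (hab (v 0) (v 0))
      exact key σ (fun k => by rw [Subsingleton.elim k 0]; exact h1)
    | 2, R, v, key =>
      obtain ⟨σ, h1, h2⟩ := (pq_eq _ _ _ _).1 (hab (v 0) (v 1))
      refine key σ (fun k => ?_)
      fin_cases k
      · exact h1
      · exact h2
    | (n + 3), R, v, key => exact ((h2 (n + 3) (by omega)).false R).elim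

end Pool.Agent.Lib.PRX
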