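import Pool.Agent.Lib.PRX.VertexMain

/-!
# The cover as a structure on the rational numbers, and the theorem on vertex colourings
-/

set_option autoImplicit false

namespace Pool.Agent.Lib.PRX

open FirstOrder FirstOrder.Language

/-- ultrahomogeneity is invariant under isomorphism -/
theorem uh_transport {L : FirstOrder.Language.{0,0}} {M N : Type} [L.Structure M] [L.Structure N] (e : N ≃[L] M)
    (hM : L.IsUltrahomogeneous M) : L.IsUltrahomogeneous N := by
  intro S hS f
  let s : S ↪[L] M := e.toEmbedding.comp S.subtype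
  obtain ⟨t, ht⟩ := hM s.toHom.range ((S.fg_iff_structure_fg.1 hS).range s.toHom)
    ((e.toEmbedding.comp f).comp s.equivRange.symm.toEmbedding)
  refine ⟨e.symm.comp (t.comp e), ?_⟩
  ext x
  have h1 := DFunLike.congr_fun ht (s.equivRange x)
  have h2 : e (f x) = t (e x) := by
    have h3 : ((e.toEmbedding.comp f).comp s.equivRange.symm.toEmbedding) (s.equivRange x) = e (f x) := by
      change e (f (s.equivRange.symm (s.equivRange x))) = e (f x)
      rw [FirstOrder.Language.Equiv.symm_apply_apply]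
    have h4 : (t.toEmbedding.comp s.toHom.range.subtype) (s.equivRange x) = t (e x) := rfl
    rw [← h3, h1, h4]
  change f x = e.symm (t (e x))
  rw [← h2, FirstOrder.Language.Equiv.symm_apply_apply]

section

variable {L : FirstOrder.Language.{0,0}} {M : Type} [L.Structure M] {n : ℕ} [Countable M]

/-- the order of the cover is the order of the rational numbers -/
theorem exists_rat (a : Fin n → M) : ∃ e : CP L a ≃ ℚ, ∀ p q, e p < e q ↔ ps p < ps q := by
  let x0 : MulAction.orbit (AutG L M) a := ⟨a, MulAction.mem_orbit_self a⟩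
  let _ : LinearOrder (CP L a) := LinearOrder.lift' ps ps_inj
  have hlt : ∀ p q : CP L a, p < q ↔ ps p < ps q := fun p q => Iff.rfl
  have h1 : DenselyOrdered (CP L a) := ⟨fun p q hpq => by
    obtain ⟨r, -, h2, h3⟩ := (fib_inf x0 _ _ ((hlt p q).1 hpq)).nonempty
    exact ⟨r, h2, h3⟩⟩
  have h2 : NoMinOrder (CP L a) := ⟨fun p => by
    obtain ⟨r, -, h2, h3⟩ := (fib_inf x0 (ps p - 1) (ps p) (by linarith)).nonempty
    exact ⟨r, h3⟩⟩
  have h3 : NoMaxOrder (CP L a) := ⟨fun p => by
    obtain ⟨r, -, h2, h3⟩ := (fib_inf x0 (ps p) (ps p + 1) (by linarith)).nonempty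
    exact ⟨r, h2⟩⟩
  have h4 : Nonempty (CP L a) := ⟨(x0, 0)⟩
  obtain ⟨e⟩ := Order.iso_of_countable_dense (CP L a) ℚ
  exact ⟨e.toEquiv, fun p q => (e.lt_iff_lt).trans (hlt p q)⟩

end

end Pool.Agent.Lib.PRX
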