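import Pool.Agent.Lib.PRX.Tree

/-!
# No infinitely branching algebraic trees in binary homogeneous permutation groups
-/

set_option autoImplicit false

namespace Pool.Agent.Lib.PRX

open Filter Topology

universe u

variable {M : Type u} {T : Type*} {G : Type*} [Group G] [MulAction G M]

theorem Ix.nonempty {b : ℕ} (hb : 0 < b) (n : ℕ) : Nonempty (Ix b n) := by
  induction n with
  | zero => exact ⟨()⟩
  | succ n ih =>
    obtain ⟨x⟩ := ih
    exact ⟨(⟨0, hb⟩, x)⟩

/-- the orbit of `v` under the pointwise stabilizer of `F` -/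
def Orb (G : Type*) [Group G] [MulAction G M] {κ : Type*} (F : κ → M) (v : M) : Set M :=
  {w | ∃ g : G, (∀ x, g • F x = F x) ∧ g • v = w}

theorem orb_parent {E : M → M → Prop} (hE : ∀ (g : G) x y, E x y → E (g • x) (g • y)) {b : ℕ}
    (hb : ∀ u : Fin b → M, Function.Injective u → {w | ∀ i, E w (u i)}.Finite)
    {κ : Type*} (F : κ → M) (v : M) (u : Fin b → M) (hu : Function.Injective u) (hvu : ∀ i, E v (u i))
    (h : ∀ i, (Orb G F (u i)).Finite) : (Orb G F v).Finite := by
  have h1 : ({u' : Fin b → M | Function.Injective u'} ∩ Set.pi Set.univ (fun i => Orb G F (u i))).Finite :=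
    (Set.Finite.pi' h).subset (fun u' hu' i => hu'.2 i (Set.mem_univ i))
  refine (h1.biUnion (t := fun u' => {w | ∀ i, E w (u' i)}) fun u' hu' => hb u' hu'.1).subset ?_
  rintro w ⟨g, hg, rfl⟩
  simp only [Set.mem_iUnion]
  refine ⟨fun i => g • u i, ⟨fun i j hij => hu (MulAction.injective g hij), fun i _ => ⟨g, hg, rfl⟩⟩, ?_⟩
  exact fun i => hE g _ _ (hvu i)

theorem orb_mono {κ κ' : Type*} (F : κ → M) (F' : κ' → M) (s : κ → κ') (hs : ∀ x, F x = F' (s x)) (v : M) :
    Orb G F' v ⊆ Orb G F v := by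
  rintro w ⟨g, hg, rfl⟩
  exact ⟨g, fun x => by rw [hs, hg], rfl⟩

theorem orb_blk {q : M → M → T} {E : M → M → Prop} {th : ℕ → T} {t0 : T}
    (hE : ∀ (g : G) x y, E x y → E (g • x) (g • y)) {b : ℕ}
    (hb : ∀ u : Fin b → M, Function.Injective u → {w | ∀ i, E w (u i)}.Finite)
    {n : ℕ} {v : M} {F : Ix b n → M} (h : Blk q E th t0 b n v F) : (Orb G F v).Finite := by
  induction n generalizing v with
  | zero =>
    refine (Set.finite_singleton v).subset ?_
    rintro w ⟨g, hg, rfl⟩
    have := hg ()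
    rw [h.1] at this
    exact this
  | succ n ih =>
    obtain ⟨u, hu, h1, -⟩ := h
    refine orb_parent hE hb F v u hu (fun i => (h1 i).1) fun i => ?_
    exact (ih (h1 i).2).subset (orb_mono _ F (fun x => (i, x)) (fun _ => rfl) _)

/-- points having type `p` to all points of a system -/
def CS (q : M → M → T) (p : T) {b n m : ℕ} (F : Fin m → Ix b n → M) : Set M := {c | ∀ i x, q c (F i x) = p}

section

variable {q : M → M → T} {E : M → M → Prop} {th : ℕ → T} {t0 : T}
  (hq : ∀ x y x' y', q x y = q x' y' ↔ ∃ g : G, g • x = x' ∧ g • y = y')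
  (hBH : ∀ (ι : Type) [Finite ι] (a b : ι → M), (∀ i j, q (a i) (a j) = q (b i) (b j)) →
    ∃ g : G, ∀ i, g • a i = b i)

include hq in
theorem q_swap (x y x' y' : M) (h : q x y = q x' y') : q y x = q y' x' := by
  rw [hq] at h ⊢
  obtain ⟨g, h1, h2⟩ := h
  exact ⟨g, h2, h1⟩

include hq in
theorem q_smul (g : G) (x y : M) : q (g • x) (g • y) = q x y := by
  refine ((hq _ _ _ _).2 ⟨g, rfl, rfl⟩).symm

include hq hBH in
theorem CS_image {b n m : ℕ} {t p : T} {F F' : Fin m → Ix b n → M} (h : Sys q E th t0 b n m t F)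
    (h' : Sys q E th t0 b n m t F') : ∃ g : G, CS q p F' = (fun c => g • c) '' CS q p F := by
  obtain ⟨g, hg⟩ := hBH (Fin m × Ix b n) (fun z => F z.1 z.2) (fun z => F' z.1 z.2)
    (fun z w => h.look (q_swap hq) h' z.1 w.1 z.2 w.2)
  refine ⟨g, Set.ext fun c => ⟨fun hc => ⟨g⁻¹ • c, fun i x => ?_, by simp⟩, ?_⟩⟩
  · rw [← hc i x, ← hg (i, x), ← q_smul hq g (g⁻¹ • c), smul_inv_smul]
  · rintro ⟨d, hd, rfl⟩ i x
    rw [← hg (i, x)]
    exact (q_smul hq g _ _).trans (hd i x)

include hq hBH in
theorem CS_ncard {b n m : ℕ} {t p : T} {F F' : Fin m → Ix b n → M} (h : Sys q E th t0 b n m t F)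
    (h' : Sys q E th t0 b n m t F') : (CS q p F).ncard = (CS q p F').ncard := by
  obtain ⟨g, hg⟩ := CS_image hq hBH (p := p) h h'
  rw [hg, Set.ncard_image_of_injective _ (MulAction.injective g)]

include hq hBH in
theorem CS_finite {b n m : ℕ} {t p : T} {F F' : Fin m → Ix b n → M} (h : Sys q E th t0 b n m t F)
    (h' : Sys q E th t0 b n m t F') (hf : (CS q p F).Finite) : (CS q p F').Finite := by
  obtain ⟨g, hg⟩ := CS_image hq hBH (p := p) h h'
  rw [hg]
  exact hf.image _

include hq hBH in
/-- `CS` is finite for a system of `m ≥ b` blocks below children of a node in it. -/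
theorem CS_finite_of_parent (hE : ∀ (g : G) x y, E x y → E (g • x) (g • y)) {b : ℕ}
    (hb : ∀ u : Fin b → M, Function.Injective u → {w | ∀ i, E w (u i)}.Finite)
    {n m : ℕ} (hb0 : 0 < b) (hm : b ≤ m) {p : T} {F : Fin m → Ix b n → M} {w : M} (u : Fin m → M)
    (hu : Function.Injective u) (hwu : ∀ i, E w (u i)) (hblk : ∀ i, Blk q E th t0 b n (u i) (F i))
    (hw : w ∈ CS q p F) : (CS q p F).Finite := by
  have h1 : (Orb G (fun z : Fin m × Ix b n => F z.1 z.2) w).Finite := by
    refine orb_parent hE hb _ w (fun i => u (Fin.castLE hm i)) (fun i j hij => ?_) (fun i => hwu _) fun i => ?_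
    · simpa using hu hij
    · exact (orb_blk hE hb (hblk (Fin.castLE hm i))).subset
        (orb_mono (G := G) _ _ (fun x => (Fin.castLE hm i, x)) (fun _ => rfl) _)
  have hne := Ix.nonempty hb0 n
  refine h1.subset ?_
  intro c hc
  obtain ⟨g, hg⟩ := hBH (Option (Fin m × Ix b n)) (fun z => z.elim w (fun z => F z.1 z.2))
    (fun z => z.elim c (fun z => F z.1 z.2)) (by
      have key : ∀ z : Fin m × Ix b n, q w (F z.1 z.2) = q c (F z.1 z.2) := fun z => by
        rw [hw, hc]
      rintro (_ | z) (_ | z')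
      · obtain ⟨x⟩ := hne
        obtain ⟨g, hg1, -⟩ := (hq _ _ _ _).1 (key (⟨0, by omega⟩, x))
        exact (hq _ _ _ _).2 ⟨g, hg1, hg1⟩
      · exact key z'
      · exact q_swap hq _ _ _ _ (key z)
      · rfl)
  exact ⟨g, fun z => hg (some z), hg none⟩

theorem Reg.desc {U : M → Ultrafilter M} {n : ℕ} {v : M} (h : Reg U q E th t0 n v) (j : ℕ) (hj : j ≤ n) :
    ∀ᶠ w in (D U j v : Filter M), Reg U q E th t0 (n - j) w := by
  induction j generalizing n v with
  | zero => rw [ev_D_zero]; exact h
  | succ j ih =>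
    rw [ev_D_succ]
    obtain ⟨n, rfl⟩ : ∃ k, n = k + 1 := ⟨n - 1, by omega⟩
    filter_upwards [h.child] with u hu
    rw [Nat.add_sub_add_right]
    exact ih hu (by omega)

include hq hBH in
/-- The core of the argument: a regular node whose levels `e < N` have the same type is impossible. -/
theorem core (hE : ∀ (g : G) x y, E x y → E (g • x) (g • y)) {b : ℕ} (hb0 : 0 < b)
    (hb : ∀ u : Fin b → M, Function.Injective u → {w | ∀ i, E w (u i)}.Finite) [Finite T]
    {U : M → Ultrafilter M} (hU : ∀ a, NP (U a)) (a : M) (N e : ℕ) (he : 1 ≤ e) (heN : e < N)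
    (hth : th e = th N) (hreg : Reg U q E th t0 N a) : False := by
  obtain ⟨n, rfl⟩ : ∃ n, e = n + 1 := ⟨e - 1, by omega⟩
  set t := th N with ht
  set p : T := lm (D U (N - (n + 1)) a) (fun w => lm (D U (n + 1) w) (fun x => q w x)) with hp
  have hpw : ∀ᶠ w in (D U (N - (n + 1)) a : Filter M), ∀ᶠ x in (D U (n + 1) w : Filter M), q w x = p := by
    filter_upwards [lm_spec (D U (N - (n + 1)) a) (fun w => lm (D U (n + 1) w) (fun x => q w x))] with w hw
    rw [← hp] at hw
    filter_upwards [lm_spec (D U (n + 1) w) (fun x => q w x)] with x hx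
    rw [hx, hw]
  -- existence of witness systems
  have hWS : ∀ (m : ℕ) (P : M → Prop), (∀ᶠ y in (D U N a : Filter M), P y) →
      ∀ᶠ w in (D U (N - (n + 1)) a : Filter M), ∃ F : Fin m → Ix b n → M, Sys q E th t0 b n m t F ∧
        (∀ i x, P (F i x)) ∧ w ∈ CS q p F ∧ (b ≤ m → (CS q p F).Finite) := by
    intro m P hP
    have hP' : ∀ᶠ w in (D U (N - (n + 1)) a : Filter M), ∀ᶠ y in (D U (n + 1) w : Filter M), P y := by
      rw [← ev_D_add, Nat.sub_add_cancel heN.le]
      exact hP
    have hr := hreg.desc (N - (n + 1)) (Nat.sub_le _ _)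
    rw [Nat.sub_sub_self heN.le] at hr
    filter_upwards [hP', hr, hpw] with w hw1 hw2 hw3
    have h0 := hw2.2 0 (Nat.succ_pos n)
    rw [ev_D_zero, Nat.sub_zero, hth] at h0
    obtain ⟨u, F, h1, h2, h3, h4, h5, -⟩ :=
      exists_sys (t := t) (U w) (fun v hv P hP => exists_blk hU b n v hv P hP) hw2.child h0.2 (hU w) _ h0.1
        (fun y => P y ∧ q w y = p) (hw1.and hw3) m
    refine ⟨F, ⟨fun i => ⟨u i, h3 i⟩, h5⟩, fun i x => (h4 i x).1, fun i x => (h4 i x).2, fun hm => ?_⟩
    exact CS_finite_of_parent hq hBH hE hb hb0 hm u h1 h2 h3 (fun i x => (h4 i x).2)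
  -- stabilization
  have hex : ∀ m, ∃ F : Fin m → Ix b n → M, Sys q E th t0 b n m t F ∧ (b ≤ m → (CS q p F).Finite) := by
    intro m
    obtain ⟨w, F, h1, -, -, h3⟩ := (hWS m (fun _ => True) (Filter.Eventually.of_forall fun _ => trivial)).exists
    exact ⟨F, h1, h3⟩
  choose Fm hFm1 hFm2 using hex
  have hmono : ∀ m, b ≤ m → (CS q p (Fm (m + 1))).ncard ≤ (CS q p (Fm m)).ncard := by
    intro m hm
    have hs : Sys q E th t0 b n m t (fun i => Fm (m + 1) i.castSucc) :=
      ⟨fun i => (hFm1 (m + 1)).1 _, fun i j hij x y => (hFm1 (m + 1)).2 _ _ (by simpa using hij) x y⟩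
    rw [CS_ncard hq hBH (hFm1 m) hs]
    refine Set.ncard_le_ncard (fun c hc i x => hc _ x) ?_
    exact CS_finite hq hBH (hFm1 m) hs (hFm2 m hm)
  have hstab : ∃ m, b ≤ m ∧ (CS q p (Fm (m + 1))).ncard = (CS q p (Fm m)).ncard := by
    by_contra hcon
    push Not at hcon
    have h1 : ∀ k, (CS q p (Fm (b + k))).ncard + k ≤ (CS q p (Fm b)).ncard := by
      intro k
      induction k with
      | zero => simp
      | succ k ih =>
        have h2 := hmono (b + k) (by omega)
        have h3 := hcon (b + k) (by omega)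
        rw [Nat.add_assoc] at h2 h3
        omega
    have := h1 ((CS q p (Fm b)).ncard + 1)
    omega
  obtain ⟨m, hm, hst⟩ := hstab
  -- the system below `a`
  have hkey : ∀ P : M → Prop, (∀ᶠ y in ((D U (N - n) a).bind (D U n) : Filter M), P y) ↔
      ∀ᶠ y in (D U N a : Filter M), P y := by
    intro P
    have h := (ev_D_add U (N - n) n a P).symm
    rwa [Nat.sub_add_cancel (by omega : n ≤ N)] at h
  have hregn : ∀ᶠ v in (D U (N - n) a : Filter M), Reg U q E th t0 n v := by
    have hr := hreg.desc (N - n) (Nat.sub_le _ _)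
    rwa [Nat.sub_sub_self (by omega : n ≤ N)] at hr
  have hN0 := hreg.2 0 (by omega)
  rw [ev_D_zero, Nat.sub_zero] at hN0
  obtain ⟨u, X, -, -, h3, -, h5, h6⟩ :=
    exists_sys (t := t) (D U (N - n) a) (fun v hv P hP => exists_blk hU b n v hv P hP) hregn
      (by
        rw [hkey]
        filter_upwards [hN0.2] with x hx
        rwa [hkey]) (NP.D hU (N - n) (by omega) a) (fun _ => True) (Filter.Eventually.of_forall fun _ => trivial)
      (fun _ => True) (Filter.Eventually.of_forall fun _ => trivial) m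
  have hX : Sys q E th t0 b n m t X := ⟨fun i => ⟨u i, h3 i⟩, h5⟩
  have hXf : (CS q p X).Finite := CS_finite hq hBH (hFm1 m) hX (hFm2 m hm)
  have h7 : ∀ᶠ y in (D U N a : Filter M), ∀ i x, q (X i x) y = t := by
    rw [Filter.eventually_all]
    intro i
    rw [Filter.eventually_all]
    intro x
    rw [← hkey]
    exact h6 i x
  have h8 : ∀ᶠ w in (D U (N - (n + 1)) a : Filter M), w ∈ CS q p X := by
    filter_upwards [hWS m _ h7] with w hw
    obtain ⟨F, hF1, hF2, hF3, hF4⟩ := hw
    have h9 : ∀ i, CS q p X ⊆ {c | ∀ x, q c (F i x) = p} := by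
      intro i
      have hs : Sys q E th t0 b n (m + 1) t (Fin.snoc (α := fun _ => Ix b n → M) X (F i)) := by
        refine ⟨fun k => ?_, fun k l hkl x y => ?_⟩
        · induction k using Fin.lastCases with
          | last => simpa using hF1.1 i
          | cast k => simpa using hX.1 k
        · induction l using Fin.lastCases with
          | last =>
            induction k using Fin.lastCases with
            | last => exact absurd hkl (lt_irrefl _)
            | cast k => simpa using hF2 i y k x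
          | cast l =>
            induction k using Fin.lastCases with
            | last => exact absurd hkl (by simp [Fin.le_last])
            | cast k => simpa using hX.2 k l (by simpa using hkl) x y
      have hsub : CS q p (Fin.snoc (α := fun _ => Ix b n → M) X (F i)) ⊆ CS q p X := by
        intro c hc k x
        simpa using hc k.castSucc x
      have hcard : (CS q p (Fin.snoc (α := fun _ => Ix b n → M) X (F i))).ncard = (CS q p X).ncard := by
        rw [CS_ncard hq hBH hs (hFm1 (m + 1)), hst, CS_ncard hq hBH (hFm1 m) hX]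
      have heq := Set.eq_of_subset_of_ncard_le hsub hcard.ge hXf
      intro c hc x
      rw [← heq] at hc
      simpa using hc (Fin.last m) x
    have h10 : CS q p X ⊆ CS q p F := fun c hc i x => h9 i hc x
    have h11 : CS q p X = CS q p F :=
      Set.eq_of_subset_of_ncard_le h10 (CS_ncard hq hBH hF1 hX).le (hF4 hm)
    rw [h11]
    exact hF3
  obtain ⟨w, hw1, hw2⟩ := (h8.and ((NP.D hU (N - (n + 1)) (by omega) a).finite hXf)).exists
  exact hw2 hw1

include hq hBH in
/-- There is no infinitely branching algebraic tree. -/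
theorem no_tree (hE : ∀ (g : G) x y, E x y → E (g • x) (g • y)) {b : ℕ} (hb0 : 0 < b)
    (hb : ∀ u : Fin b → M, Function.Injective u → {w | ∀ i, E w (u i)}.Finite) [Finite T]
    (W : Set M) (hne : W.Nonempty) (hW : ∀ w ∈ W, {u | u ∈ W ∧ E w u}.Infinite) : False := by
  classical
  obtain ⟨a0, ha0⟩ := hne
  -- the ultrafilters
  have hex : ∀ a : M, ∃ 𝒰 : Ultrafilter M, NP 𝒰 ∧ (a ∈ W → ∀ᶠ u in (𝒰 : Filter M), u ∈ W ∧ E a u) := by
    intro a
    set s : Set M := if a ∈ W then {u | u ∈ W ∧ E a u} else {u | u ∈ W ∧ E a0 u} with hs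
    have hsi : s.Infinite := by
      rw [hs]
      split_ifs with h
      · exact hW a h
      · exact hW a0 ha0
    have : (Filter.cofinite ⊓ 𝓟 s).NeBot := hsi.cofinite_inf_principal_neBot
    refine ⟨Ultrafilter.of (Filter.cofinite ⊓ 𝓟 s), fun c => ?_, fun ha => ?_⟩
    · have h1 : ∀ᶠ x in Filter.cofinite, x ≠ c := (Set.finite_singleton c).compl_mem_cofinite
      exact Ultrafilter.of_le _ (Filter.mem_inf_of_left h1)
    · have h1 : ∀ᶠ x in 𝓟 s, x ∈ s := Filter.mem_principal_self s
      have h2 := Ultrafilter.of_le _ (Filter.mem_inf_of_right (f := Filter.cofinite) h1)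
      have h3 : ∀ x ∈ s, x ∈ W ∧ E a x := by
        intro x hx
        rw [hs, if_pos ha] at hx
        exact hx
      filter_upwards [h2] with x hx
      exact h3 x hx
  choose U hU hUW using hex
  have hDW : ∀ n, ∀ a ∈ W, ∀ᶠ w in (D U n a : Filter M), w ∈ W := by
    intro n
    induction n with
    | zero => intro a ha; rw [ev_D_zero]; exact ha
    | succ n ih =>
      intro a ha
      rw [ev_D_succ]
      filter_upwards [hUW a ha] with u hu
      exact ih u hu.1
  -- the types of the levels
  let θ : ℕ → M → T := fun n a => lm (D U n a) (fun x => lm (D U n a) (fun y => q x y))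
  have hθ : ∀ n a, ∀ᶠ x in (D U n a : Filter M), ∀ᶠ y in (D U n a : Filter M), q x y = θ n a := by
    intro n a
    filter_upwards [lm_spec (D U n a) (fun x => lm (D U n a) (fun y => q x y))] with x hx
    filter_upwards [lm_spec (D U n a) (fun y => q x y)] with y hy
    rw [hy, hx]
  set h := Nat.card T + 1 with hh
  let th : ℕ → T := fun e => lm (D U (h - e) a0) (fun w => θ e w)
  have hth : ∀ e, ∀ᶠ w in (D U (h - e) a0 : Filter M), θ e w = th e := fun e => lm_spec _ _
  set t0 : T := lm (D U h a0) (fun x => q x x) with ht0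
  -- pigeonhole
  obtain ⟨e, N, he, heN, hNh, heq⟩ : ∃ e N, 1 ≤ e ∧ e < N ∧ N ≤ h ∧ th e = th N := by
    have := Fintype.ofFinite T
    obtain ⟨i, j, hij, hij'⟩ := Fintype.exists_ne_map_eq_of_card_lt (fun i : Fin h => th (i + 1))
      (by rw [Fintype.card_fin, hh, Nat.card_eq_fintype_card]; exact Nat.lt_succ_self _)
    rcases lt_or_gt_of_ne hij with hlt | hlt
    · exact ⟨i + 1, j + 1, by omega, by simpa using hlt, by omega, hij'⟩
    · exact ⟨j + 1, i + 1, by omega, by simpa using hlt, by omega, hij'.symm⟩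
  -- a regular node of height `N`
  have hreg : ∀ᶠ a in (D U (h - N) a0 : Filter M), Reg U q E th t0 N a := by
    have h1 : ∀ᶠ a in (D U (h - N) a0 : Filter M), ∀ᶠ x in (D U N a : Filter M), q x x = t0 := by
      rw [← ev_D_add, Nat.sub_add_cancel hNh]
      exact lm_spec _ _
    have h2 : ∀ᶠ a in (D U (h - N) a0 : Filter M), ∀ j ∈ Set.Iio N, ∀ᶠ w in (D U j a : Filter M),
        (∀ᶠ u in (U w : Filter M), E w u) ∧
        ∀ᶠ x in (D U (N - j) w : Filter M), ∀ᶠ y in (D U (N - j) w : Filter M), q x y = th (N - j) := by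
      rw [Filter.eventually_all_finite (Set.finite_Iio N)]
      intro j hj
      rw [Set.mem_Iio] at hj
      rw [← ev_D_add, show h - N + j = h - (N - j) by omega]
      filter_upwards [hth (N - j), hDW (h - (N - j)) a0 ha0] with w hw1 hw2
      refine ⟨?_, ?_⟩
      · filter_upwards [hUW w hw2] with u hu
        exact hu.2
      · rw [← hw1]
        exact hθ _ _
    filter_upwards [h1, h2] with a ha1 ha2
    exact ⟨ha1, fun j hj => ha2 j hj⟩
  obtain ⟨a, ha⟩ := hreg.exists
  exact core hq hBH hE hb0 hb hU a N e he heN heq ha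

end

end Pool.Agent.Lib.PRX
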