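import Pool.Agent.Lib.PRX.Hom
import Pool.Agent.Lib.PRX.Sparse

/-!
# Invariant sparse graphs of binary homogeneous permutation groups
-/

set_option autoImplicit false

namespace Pool.Agent.Lib.PRX

section group

variable {G P : Type*} [Group G] [MulAction G P]

/-- `y` is algebraic over `x` -/
def Al (G : Type*) {P : Type*} [Group G] [MulAction G P] (x y : P) : Prop :=
  {z | ∃ g : G, g • x = x ∧ g • y = z}.Finite

theorem Al.trans {x y z : P} (h1 : Al G x y) (h2 : Al G y z) : Al G x z := by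
  have h3 : ∀ w ∈ {w | ∃ g : G, g • x = x ∧ g • y = w}, {v | ∃ g : G, g • x = x ∧ g • y = w ∧ g • z = v}.Finite := by
    rintro w ⟨t, h3, rfl⟩
    refine (h2.image (fun p => t • p)).subset ?_
    rintro _ ⟨s, h4, h5, rfl⟩
    refine ⟨(t⁻¹ * s) • z, ⟨t⁻¹ * s, ?_, rfl⟩, ?_⟩
    · rw [mul_smul, h5, inv_smul_smul]
    · change t • ((t⁻¹ * s) • z) = s • z
      rw [mul_smul, smul_inv_smul]
  refine (h1.biUnion h3).subset ?_
  rintro _ ⟨s, h4, rfl⟩
  simp only [Set.mem_iUnion]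
  exact ⟨s • y, ⟨s, h4, rfl⟩, s, h4, rfl, rfl⟩

theorem Al.aut {x y : P} (h : Al G x y) (t : G) : Al G (t • x) (t • y) := by
  refine (h.image (fun p => t • p)).subset ?_
  rintro _ ⟨s, h4, rfl⟩
  refine ⟨(t⁻¹ * s * t) • y, ⟨t⁻¹ * s * t, ?_, rfl⟩, ?_⟩
  · rw [mul_smul, mul_smul, h4, inv_smul_smul]
  · change t • ((t⁻¹ * s * t) • y) = s • t • y
    simp only [mul_smul, smul_inv_smul]

theorem Al.refl (x : P) : Al G x x := by
  refine (Set.finite_singleton x).subset ?_
  rintro _ ⟨g, h, rfl⟩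
  exact h

variable {T : Type*} [Finite T] {q : P → P → T}
  (hq : ∀ x y x' y', q x y = q x' y' ↔ ∃ g : G, g • x = x' ∧ g • y = y')
  (hBH : ∀ (ι : Type) [Finite ι] (a b : ι → P), (∀ i j, q (a i) (a j) = q (b i) (b j)) →
    ∃ g : G, ∀ i, g • a i = b i)

include hq in
/-- algebraic closures of points are finite and bounded -/
theorem al_bound : ∃ K : ℕ, ∀ x : P, {y | Al G x y}.Finite ∧ {y | Al G x y}.ncard ≤ K := by
  classical
  have := Fintype.ofFinite T
  -- the size of the class of `t` over a point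
  let N : T → Set ℕ := fun t => {m | ∃ x y, q x y = t ∧ Al G x y ∧ m = {z | ∃ g : G, g • x = x ∧ g • y = z}.ncard}
  refine ⟨∑ t, sSup (N t), fun x => ?_⟩
  have h1 : ∀ t : T, ({y | Al G x y ∧ q x y = t}).Finite ∧
      ({y | Al G x y ∧ q x y = t}).ncard ≤ sSup (N t) := by
    intro t
    rcases Set.eq_empty_or_nonempty {y | Al G x y ∧ q x y = t} with he | ⟨y, hy1, hy2⟩
    · rw [he]
      exact ⟨Set.finite_empty, by simp⟩
    · have h7 : {y | Al G x y ∧ q x y = t} ⊆ {z | ∃ g : G, g • x = x ∧ g • y = z} := by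
        rintro z ⟨-, hz⟩
        have h8 : q x y = q x z := by rw [hy2, hz]
        exact (hq _ _ _ _).1 h8
      refine ⟨hy1.subset h7, (Set.ncard_le_ncard h7 hy1).trans ?_⟩
      have h9 : ∀ m ∈ N t, m = {z | ∃ g : G, g • x = x ∧ g • y = z}.ncard := by
        rintro m ⟨x', y', h10, -, rfl⟩
        obtain ⟨s, hs1, hs2⟩ := (hq _ _ _ _).1 (h10.trans hy2.symm)
        rw [← Set.ncard_image_of_injective _ (MulAction.injective s)]
        congr 1
        ext z
        constructor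
        · rintro ⟨_, ⟨g, h11, rfl⟩, rfl⟩
          refine ⟨s * g * s⁻¹, ?_, ?_⟩
          · simp only [mul_smul, ← hs1, inv_smul_smul, h11]
          · simp only [mul_smul, ← hs2, inv_smul_smul]
        · rintro ⟨g, h11, rfl⟩
          refine ⟨(s⁻¹ * g * s) • y', ⟨s⁻¹ * g * s, ?_, rfl⟩, ?_⟩
          · simp only [mul_smul, hs1, h11]
            rw [← hs1, inv_smul_smul]
          · simp only [mul_smul, hs2, smul_inv_smul]
      refine le_csSup ⟨_, fun m hm => (h9 m hm).le⟩ ⟨x, y, hy2, hy1, rfl⟩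
  have h2 : {y | Al G x y} = ⋃ t, {y | Al G x y ∧ q x y = t} := by
    ext y
    simp
  rw [h2]
  refine ⟨Set.finite_iUnion fun t => (h1 t).1, ?_⟩
  refine (Set.ncard_iUnion_le_of_fintype _).trans ?_
  exact Finset.sum_le_sum fun t _ => (h1 t).2

include hq hBH in
/-- The main implication: an invariant graph without `K_{b,∞}` has algebraic edges only. -/
theorem al_of_bip (Γ : SimpleGraph P) (hΓ : ∀ (g : G) (x y : P), Γ.Adj x y → Γ.Adj (g • x) (g • y)) (b : ℕ)
    (hb : ∀ u : Fin b → P, Function.Injective u → {w | ∀ i, Γ.Adj w (u i)}.Finite)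
    (x y : P) (hxy : Γ.Adj x y) : Al G x y ∨ Al G y x := by
  classical
  by_contra hcon
  push Not at hcon
  obtain ⟨hx, hy⟩ := hcon
  rcases Nat.eq_zero_or_pos b with rfl | hb0
  · have h3 := hb (fun i => i.elim0) (fun i => i.elim0)
    have h4 : (Set.univ : Set P).Finite := h3.subset fun w _ i => i.elim0
    exact hx (h4.subset (Set.subset_univ _))
  let E : P → P → Prop := fun u v => ∃ s : G, (s • x = u ∧ s • y = v) ∨ (s • y = u ∧ s • x = v)
  have hEΓ : ∀ u v, E u v → Γ.Adj u v := by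
    rintro u v ⟨σ, ⟨rfl, rfl⟩ | ⟨rfl, rfl⟩⟩
    · exact hΓ σ _ _ hxy
    · exact hΓ σ _ _ hxy.symm
  refine no_tree hq hBH (E := E) ?_ hb0 ?_ {w | ∃ s : G, s • x = w ∨ s • y = w} ⟨x, 1, Or.inl (one_smul _ _)⟩ ?_
  · rintro g u v ⟨σ, ⟨rfl, rfl⟩ | ⟨rfl, rfl⟩⟩
    · exact ⟨g * σ, Or.inl ⟨mul_smul _ _ _, mul_smul _ _ _⟩⟩
    · exact ⟨g * σ, Or.inr ⟨mul_smul _ _ _, mul_smul _ _ _⟩⟩
  · intro u hu
    exact (hb u hu).subset fun w hw i => hEΓ _ _ (hw i)
  · rintro w ⟨s, rfl | rfl⟩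
    · have h3 : Set.Infinite ((fun z => s • z) '' {z | ∃ g : G, g • x = x ∧ g • y = z}) :=
        Set.Infinite.image (MulAction.injective s).injOn hx
      refine h3.mono ?_
      rintro _ ⟨z, ⟨g, h4, rfl⟩, rfl⟩
      refine ⟨⟨s * g, Or.inr (mul_smul _ _ _)⟩, s * g, Or.inl ⟨?_, mul_smul _ _ _⟩⟩
      rw [mul_smul, h4]
    · have h3 : Set.Infinite ((fun z => s • z) '' {z | ∃ g : G, g • y = y ∧ g • x = z}) :=
        Set.Infinite.image (MulAction.injective s).injOn hy
      refine h3.mono ?_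
      rintro _ ⟨z, ⟨g, h4, rfl⟩, rfl⟩
      refine ⟨⟨s * g, Or.inl (mul_smul _ _ _)⟩, s * g, Or.inr ⟨?_, mul_smul _ _ _⟩⟩
      rw [mul_smul, h4]

include hq hBH in
/-- The equivalences. -/
theorem sparse_tfae (Γ : SimpleGraph P) (hΓ : ∀ (g : G) (x y : P), Γ.Adj x y → Γ.Adj (g • x) (g • y)) :
    List.TFAE [
      ∃ b : ℕ, ∀ u v : Fin b → P, Function.Injective u → Function.Injective v → ∃ i j, ¬ Γ.Adj (u i) (v j),
      ∃ b : ℕ, ∀ u : Fin b → P, Function.Injective u → {w | ∀ i, Γ.Adj w (u i)}.Finite,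
      ∃ k : ℕ, ∀ F : Finset P, {p : P × P | p.1 ∈ F ∧ p.2 ∈ F ∧ Γ.Adj p.1 p.2}.ncard ≤ 2 * k * F.card,
      ∀ x y, Γ.Adj x y → Al G x y ∨ Al G y x,
      ∃ (K : ℕ) (D : P → P → Prop), (∀ (g : G) x y, D x y → D (g • x) (g • y)) ∧
        (∀ x y, Γ.Adj x y → D x y ∨ D y x) ∧
        ∀ x, {y | Relation.ReflTransGen D x y}.Finite ∧ {y | Relation.ReflTransGen D x y}.ncard ≤ K] := by
  classical
  tfae_have 1 → 2 := by
    rintro ⟨b, hb⟩
    refine ⟨b, fun u hu => ?_⟩
    by_contra hinf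
    obtain ⟨v, hv⟩ := Set.Infinite.natEmbedding _ hinf
    obtain ⟨i, j, hij⟩ := hb u (fun j => (v j : P)) hu (fun j j' h => by
      have := hv (Subtype.ext h)
      exact Fin.ext this)
    exact hij ((v j).2 i).symm
  tfae_have 2 → 4 := by
    rintro ⟨b, hb⟩ x y hxy
    exact al_of_bip hq hBH Γ hΓ b hb x y hxy
  tfae_have 4 → 5 := by
    intro h
    obtain ⟨K, hK⟩ := al_bound (G := G) hq
    refine ⟨K, fun x y => Al G x y, fun g x y hxy => hxy.aut g, h, fun x => ?_⟩
    have h1 : {y | Relation.ReflTransGen (fun x y => Al G x y) x y} ⊆ {y | Al G x y} := by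
      intro y hy
      induction hy with
      | refl => exact Al.refl x
      | tail _ h2 ih => exact Al.trans ih h2
    exact ⟨(hK x).1.subset h1, (Set.ncard_le_ncard h1 (hK x).1).trans (hK x).2⟩
  tfae_have 5 → 3 := by
    rintro ⟨K, D, -, hcov, hD⟩
    refine ⟨K, fun F => ?_⟩
    have h1 : {p : P × P | p.1 ∈ F ∧ p.2 ∈ F ∧ Γ.Adj p.1 p.2} ⊆
        (⋃ x ∈ F, (fun y => (x, y)) '' {y | Relation.ReflTransGen D x y}) ∪
        (⋃ x ∈ F, (fun y => (y, x)) '' {y | Relation.ReflTransGen D x y}) := by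
      rintro ⟨x, y⟩ ⟨hx, hy, hxy⟩
      rcases hcov x y hxy with h | h
      · left
        simp only [Set.mem_iUnion]
        exact ⟨x, hx, y, Relation.ReflTransGen.single h, rfl⟩
      · right
        simp only [Set.mem_iUnion]
        exact ⟨y, hy, x, Relation.ReflTransGen.single h, rfl⟩
    have h2 : ∀ (f : P → P → P × P), (∀ x, Function.Injective (f x)) →
        (⋃ x ∈ F, (fun y => f x y) '' {y | Relation.ReflTransGen D x y}).Finite ∧
        (⋃ x ∈ F, (fun y => f x y) '' {y | Relation.ReflTransGen D x y}).ncard ≤ K * F.card := by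
      intro f hf
      refine ⟨F.finite_toSet.biUnion fun x _ => (hD x).1.image _, ?_⟩
      have h3 := Finset.set_ncard_biUnion_le F (fun x => (fun y => f x y) '' {y | Relation.ReflTransGen D x y})
      refine h3.trans ?_
      rw [mul_comm, ← smul_eq_mul]
      refine Finset.sum_le_card_nsmul _ _ _ fun x _ => ?_
      exact (Set.ncard_image_of_injective _ (hf x)).le.trans (hD x).2
    obtain ⟨h3, h4⟩ := h2 (fun x y => (x, y)) (fun x y y' h => (Prod.mk.inj h).2)
    obtain ⟨h5, h6⟩ := h2 (fun x y => (y, x)) (fun x y y' h => (Prod.mk.inj h).1)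
    refine (Set.ncard_le_ncard h1 (h3.union h5)).trans ((Set.ncard_union_le _ _).trans ?_)
    calc _ ≤ K * F.card + K * F.card := add_le_add h4 h6
      _ = 2 * K * F.card := by ring
  tfae_have 3 → 1 := by
    rintro ⟨k, hk⟩
    refine ⟨2 * k + 1, fun u v hu hv => ?_⟩
    by_contra hcon
    push Not at hcon
    let F : Finset P := Finset.univ.image u ∪ Finset.univ.image v
    have hF : F.card ≤ 2 * (2 * k + 1) := by
      refine (Finset.card_union_le _ _).trans ?_
      rw [Finset.card_image_of_injective _ hu, Finset.card_image_of_injective _ hv, Finset.card_univ, Fintype.card_fin]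
      omega
    have h1 := hk F
    have hne : ∀ i j, u i ≠ v j := fun i j h => by
      have := hcon i j
      rw [h] at this
      exact Γ.loopless.irrefl _ this
    let f : (Fin (2 * k + 1) × Fin (2 * k + 1)) ⊕ (Fin (2 * k + 1) × Fin (2 * k + 1)) → P × P :=
      Sum.elim (fun z => (u z.1, v z.2)) (fun z => (v z.1, u z.2))
    have hf : Function.Injective f := by
      rintro (⟨i, j⟩ | ⟨i, j⟩) (⟨i', j'⟩ | ⟨i', j'⟩) h
      · simp only [f, Sum.elim_inl, Prod.mk.injEq] at h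
        rw [hu h.1, hv h.2]
      · simp only [f, Sum.elim_inl, Sum.elim_inr, Prod.mk.injEq] at h
        exact absurd h.1 (hne _ _)
      · simp only [f, Sum.elim_inl, Sum.elim_inr, Prod.mk.injEq] at h
        exact absurd h.1.symm (hne _ _)
      · simp only [f, Sum.elim_inr, Prod.mk.injEq] at h
        rw [hv h.1, hu h.2]
    have h2 : Set.range f ⊆ {p : P × P | p.1 ∈ F ∧ p.2 ∈ F ∧ Γ.Adj p.1 p.2} := by
      rintro _ ⟨(⟨i, j⟩ | ⟨i, j⟩), rfl⟩
      · exact ⟨Finset.mem_union_left _ (Finset.mem_image_of_mem _ (Finset.mem_univ _)),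
          Finset.mem_union_right _ (Finset.mem_image_of_mem _ (Finset.mem_univ _)), hcon i j⟩
      · exact ⟨Finset.mem_union_right _ (Finset.mem_image_of_mem _ (Finset.mem_univ _)),
          Finset.mem_union_left _ (Finset.mem_image_of_mem _ (Finset.mem_univ _)), (hcon j i).symm⟩
    have h3 : {p : P × P | p.1 ∈ F ∧ p.2 ∈ F ∧ Γ.Adj p.1 p.2}.Finite :=
      (F ×ˢ F).finite_toSet.subset fun p hp => by
        simp only [Finset.coe_product, Set.mem_prod, Finset.mem_coe]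
        exact ⟨hp.1, hp.2.1⟩
    have h4 := Set.ncard_le_ncard h2 h3
    rw [← Set.image_univ, Set.ncard_image_of_injective _ hf, Set.ncard_univ, Nat.card_eq_fintype_card,
      Fintype.card_sum, Fintype.card_prod, Fintype.card_fin] at h4
    have h5 : 2 * k * F.card ≤ 2 * k * (2 * (2 * k + 1)) := Nat.mul_le_mul_left _ hF
    nlinarith [h4, h1, h5]
  tfae_finish

end group

section tuples

open FirstOrder FirstOrder.Language

variable {L : FirstOrder.Language.{0,0}} {M : Type} [L.Structure M]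

/-- the orbits of pairs of `n`-tuples -/
def tupSetoid (L : FirstOrder.Language.{0,0}) (M : Type) [L.Structure M] (n : ℕ) :
    Setoid ((Fin n → M) × (Fin n → M)) where
  r p p' := ∃ g : AutG L M, g • p.1 = p'.1 ∧ g • p.2 = p'.2
  iseqv :=
    { refl := fun p => ⟨1, one_smul _ _, one_smul _ _⟩
      symm := by
        rintro p p' ⟨g, h1, h2⟩
        exact ⟨g⁻¹, by rw [← h1, inv_smul_smul], by rw [← h2, inv_smul_smul]⟩
      trans := by
        rintro p p' p'' ⟨g, h1, h2⟩ ⟨g', h3, h4⟩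
        exact ⟨g' * g, by rw [mul_smul, h1, h3], by rw [mul_smul, h2, h4]⟩ }

theorem finite_tup (hL : ∀ n, IsEmpty (L.Functions n)) (hfin : Finite (Σ n, L.Relations n))
    (hM : L.IsUltrahomogeneous M) (n : ℕ) : Finite (Quotient (tupSetoid L M n)) := by
  obtain ⟨D, hD, f, hf⟩ := exists_finite_data hL hfin hM (Fin n ⊕ Fin n)
  let F : Quotient (tupSetoid L M n) → D := fun t => f (Sum.elim t.out.1 t.out.2)
  refine Finite.of_injective F fun t t' htt => ?_
  obtain ⟨σ, hσ⟩ := hf _ _ htt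
  rw [← Quotient.out_eq t, ← Quotient.out_eq t']
  exact Quotient.sound ⟨toG σ, funext fun i => hσ (Sum.inl i), funext fun i => hσ (Sum.inr i)⟩

theorem tup_hom (hL : ∀ n, IsEmpty (L.Functions n)) (h2 : ∀ n, 3 ≤ n → IsEmpty (L.Relations n))
    (hM : L.IsUltrahomogeneous M) (n : ℕ) (ι : Type) [Finite ι] (a b : ι → Fin n → M)
    (hab : ∀ i j, ∃ g : AutG L M, g • a i = b i ∧ g • a j = b j) :
    ∃ g : AutG L M, ∀ i, g • a i = b i := by
  obtain ⟨σ, hσ⟩ := binary_hom hL h2 hM (ι × Fin n) (fun z => a z.1 z.2) (fun z => b z.1 z.2) (by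
    rintro ⟨i, k⟩ ⟨j, l⟩
    obtain ⟨g, h3, h4⟩ := hab i j
    obtain ⟨σ, hσ⟩ := exists_aut g
    rw [pq_eq]
    exact ⟨σ, by rw [hσ]; exact congrFun h3 k, by rw [hσ]; exact congrFun h4 l⟩)
  exact ⟨toG σ, fun i => funext fun k => hσ (i, k)⟩

theorem sparse_tuples (hL : ∀ n, IsEmpty (L.Functions n)) (hfin : Finite (Σ n, L.Relations n))
    (h2 : ∀ n, 3 ≤ n → IsEmpty (L.Relations n)) (hM : L.IsUltrahomogeneous M) (n : ℕ)
    (Γ : SimpleGraph (Fin n → M))
    (hΓ : ∀ (σ : M ≃[L] M) (x y : Fin n → M), Γ.Adj x y → Γ.Adj (fun i => σ (x i)) (fun i => σ (y i))) :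
    List.TFAE [
      ∃ b : ℕ, ∀ u v : Fin b → (Fin n → M), Function.Injective u → Function.Injective v →
        ∃ i j, ¬ Γ.Adj (u i) (v j),
      ∃ b : ℕ, ∀ u : Fin b → (Fin n → M), Function.Injective u → {w | ∀ i, Γ.Adj w (u i)}.Finite,
      ∃ k : ℕ, ∀ F : Finset (Fin n → M),
        {p : (Fin n → M) × (Fin n → M) | p.1 ∈ F ∧ p.2 ∈ F ∧ Γ.Adj p.1 p.2}.ncard ≤ 2 * k * F.card,
      ∀ x y, Γ.Adj x y →
        {z | ∃ σ : M ≃[L] M, (fun i => σ (x i)) = x ∧ (fun i => σ (y i)) = z}.Finite ∨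
        {z | ∃ σ : M ≃[L] M, (fun i => σ (y i)) = y ∧ (fun i => σ (x i)) = z}.Finite,
      ∃ (K : ℕ) (D : (Fin n → M) → (Fin n → M) → Prop),
        (∀ (σ : M ≃[L] M) (x y : Fin n → M), D x y → D (fun i => σ (x i)) (fun i => σ (y i))) ∧
        (∀ x y, Γ.Adj x y → D x y ∨ D y x) ∧
        ∀ x, {y | Relation.ReflTransGen D x y}.Finite ∧
          {y | Relation.ReflTransGen D x y}.ncard ≤ K] := by
  have := finite_tup hL hfin hM n
  have hg : ∀ (g : AutG L M), ∃ σ : M ≃[L] M, ∀ x : Fin n → M, (fun i => σ (x i)) = g • x := by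
    intro g
    obtain ⟨σ, hσ⟩ := exists_aut g
    exact ⟨σ, fun x => funext fun i => hσ (x i)⟩
  have hs : ∀ (σ : M ≃[L] M) (x : Fin n → M), (fun i => σ (x i)) = toG σ • x := fun σ x => rfl
  have key := sparse_tfae (G := AutG L M) (P := Fin n → M) (T := Quotient (tupSetoid L M n))
    (q := fun x y => Quotient.mk _ (x, y)) (fun x y x' y' => Quotient.eq)
    (fun ι _ a b hab => tup_hom hL h2 hM n ι a b fun i j => Quotient.eq.1 (hab i j)) Γ
    (fun g x y hxy => by
      obtain ⟨σ, hσ⟩ := hg g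
      rw [← hσ, ← hσ]
      exact hΓ σ x y hxy)
  have hset : ∀ x y : Fin n → M, {z | ∃ σ : M ≃[L] M, (fun i => σ (x i)) = x ∧ (fun i => σ (y i)) = z} =
      {z | ∃ g : AutG L M, g • x = x ∧ g • y = z} := by
    intro x y
    ext z
    constructor
    · rintro ⟨σ, h3, h4⟩
      exact ⟨toG σ, h3, h4⟩
    · rintro ⟨g, h3, h4⟩
      obtain ⟨σ, hσ⟩ := hg g
      exact ⟨σ, by rw [hσ, h3], by rw [hσ, h4]⟩
  have hinv : ∀ D : (Fin n → M) → (Fin n → M) → Prop,
      (∀ (σ : M ≃[L] M) (x y : Fin n → M), D x y → D (fun i => σ (x i)) (fun i => σ (y i))) ↔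
      (∀ (g : AutG L M) x y, D x y → D (g • x) (g • y)) := by
    intro D
    constructor
    · intro h g x y hxy
      obtain ⟨σ, hσ⟩ := hg g
      rw [← hσ, ← hσ]
      exact h σ x y hxy
    · intro h σ x y hxy
      exact h (toG σ) x y hxy
  simp only [hset, hinv]
  exact key

end tuples

end Pool.Agent.Lib.PRX
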