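import Pool.Agent.Lib.PRX.Cover
import Pool.Agent.Lib.PRX.Expand

/-!
# Reduction to colourings of vertices
-/

set_option autoImplicit false

namespace Pool.Agent.Lib.PRX

open FirstOrder FirstOrder.Language Set

/-- degrees of the orbits bound the degree of the set of all tuples -/
theorem deg_tuples {L : FirstOrder.Language.{0,0}} (hL : ∀ m, IsEmpty (L.Functions m))
    (hfin : Finite (Σ n, L.Relations n)) {M : Type} [L.Structure M] (hM : L.IsUltrahomogeneous M) (n : ℕ)
    (h : ∀ a : Fin n → M, ∃ d, Deg (AutG L M) (MulAction.orbit (AutG L M) a) d) :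
    ∃ d, Deg (AutG L M) (Fin n → M) d := by
  classical
  obtain ⟨D, hD, f, hf⟩ := exists_finite_data hL hfin hM (Fin n)
  have := Fintype.ofFinite D
  choose d hd using h
  -- representatives
  let rep : D → Option (Fin n → M) := fun δ => if h : ∃ a, f a = δ then some h.choose else none
  let dd : D → ℕ := fun δ => (rep δ).elim 0 d
  refine ⟨∑ δ, dd δ, fun k c B => ?_⟩
  obtain ⟨S, hS1, hS2⟩ := exists_min _ (oc_CI (colAct (AutG L M) (Fin n → M) (Fin k)) c)
  obtain ⟨c', hc'⟩ := hS2.ne
  have hU : IsOpen {w : (Fin n → M) → Fin k | ∀ x ∈ B, w x = c' x} := by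
    have : {w : (Fin n → M) → Fin k | ∀ x ∈ B, w x = c' x} = ⋂ x ∈ B, {w | w x = c' x} := by
      ext w
      simp
    rw [this]
    refine isOpen_biInter_finset fun x _ => ?_
    have hc : Continuous (fun w : (Fin n → M) → Fin k => w x) := continuous_apply x
    exact (isOpen_discrete {c' x}).preimage hc
  obtain ⟨g, hg⟩ := mem_oc (hS1 hc') hU fun x _ => rfl
  refine ⟨g, ?_⟩
  have h1 : (B.image fun x => c (g • x)) = B.image c' := Finset.image_congr fun x hx => hg x hx
  rw [h1]
  have h2 : (range c') ⊆ ⋃ δ : D, (rep δ).elim ∅ (fun a => range fun x : MulAction.orbit (AutG L M) a => c' x.1) := by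
    rintro _ ⟨x, rfl⟩
    rw [mem_iUnion]
    refine ⟨f x, ?_⟩
    have h3 : ∃ a, f a = f x := ⟨x, rfl⟩
    have h4 : rep (f x) = some h3.choose := dif_pos h3
    rw [h4]
    obtain ⟨σ, hσ⟩ := hf _ _ h3.choose_spec
    exact ⟨⟨x, toG σ, funext hσ⟩, rfl⟩
  have h3 : (B.image c').card ≤ (range c').ncard := by
    rw [← Set.ncard_coe_finset]
    refine Set.ncard_le_ncard ?_ (Set.toFinite _)
    intro y hy
    simp only [Finset.coe_image, mem_image, Finset.mem_coe] at hy
    obtain ⟨x, -, rfl⟩ := hy
    exact ⟨x, rfl⟩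
  refine h3.trans ((Set.ncard_le_ncard h2 (Set.toFinite _)).trans ((Set.ncard_iUnion_le_of_fintype _).trans ?_))
  refine Finset.sum_le_sum fun δ _ => ?_
  simp only [dd]
  rcases hr : rep δ with _ | a
  · simp
  · simp only [Option.elim]
    exact deg_range_map (hd a) hS2 (fun w => fun x : MulAction.orbit (AutG L M) a => w x.1)
      (continuous_pi fun x => continuous_apply x.1) (fun g z x => rfl) hc'

/-- A Ramsey expansion with finitely many orbits on points bounds the vertex degree. -/
theorem vertex_of_point {L L' : FirstOrder.Language.{0,0}} (hL' : ∀ n, IsEmpty (L'.Functions n))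
    (φ : L →ᴸ L') {M : Type} [L.Structure M] [L'.Structure M] (hφ : φ.IsExpansionOn M)
    (hM : L'.IsUltrahomogeneous M)
    (hR : ∀ (A B : L'.Substructure M), A.FG → B.FG → ∀ k : ℕ,
        ∃ C : L'.Substructure M, C.FG ∧ ∀ c : (A ↪[L'] C) → Fin k,
          ∃ g : B ↪[L'] C, ∃ i : Fin k, ∀ f : A ↪[L'] B, c (g.comp f) = i)
    (F : Finset M) (hF : ∀ x : M, ∃ y ∈ F, ∃ σ : M ≃[L'] M, σ y = x) (k : ℕ) (c : M → Fin k) (B : Finset M) :
    ∃ σ : M ≃[L] M, (B.image fun x => c (σ x)).card ≤ F.card := by
  classical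
  have hrel : L'.IsRelational := hL'
  -- the iterated Ramsey property
  have key : ∀ (ys : Finset M) (B : Finset M), ∃ C : Finset M, ∀ c : M → Fin k, ∃ σ : M ≃[L'] M,
      (∀ x ∈ B, σ x ∈ C) ∧ ∀ y ∈ ys, ∃ i, ∀ x ∈ B, (∃ τ : M ≃[L'] M, τ y = x) → c (σ x) = i := by
    intro ys
    induction ys using Finset.induction_on with
    | empty =>
      intro B
      exact ⟨B, fun c => ⟨FirstOrder.Language.Equiv.refl L' M, fun x hx => hx, fun y hy => absurd hy (by simp)⟩⟩
    | insert y ys _ ih =>
      intro B
      obtain ⟨C1, hC1⟩ := ih B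
      set A' := Substructure.closure L' ({y} : Set M) with hA'
      set B' := Substructure.closure L' (C1 : Set M) with hB'
      have hA'm : ∀ x, x ∈ A' ↔ x = y := fun x => by
        rw [hA', Substructure.mem_closure_iff_of_isRelational]
        exact Set.mem_singleton_iff
      have hB'm : ∀ x, x ∈ B' ↔ x ∈ C1 := fun x => by
        rw [hB', Substructure.mem_closure_iff_of_isRelational]
        exact Finset.mem_coe
      have hB'fg : B'.FG := Substructure.fg_closure C1.finite_toSet
      obtain ⟨C, hC, hC'⟩ := hR A' B' (Substructure.fg_closure (Set.finite_singleton y)) hB'fg k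
      have hCf : Finite C := Substructure.FG.finite hC
      refine ⟨(Set.toFinite (C : Set M)).toFinset, fun c => ?_⟩
      have hyA : y ∈ A' := (hA'm y).2 rfl
      obtain ⟨g, i0, hg⟩ := hC' (fun e => c (e ⟨y, hyA⟩))
      obtain ⟨ĝ, hĝ⟩ := hM B' hB'fg ((Substructure.subtype C).comp g)
      have hĝ' : ∀ x : B', ĝ x = (g x : M) := fun x => by
        have := DFunLike.congr_fun hĝ x
        exact this.symm
      obtain ⟨σ, hσ1, hσ2⟩ := hC1 (fun x => c (ĝ x))
      refine ⟨ĝ.comp σ, fun x hx => ?_, fun y' hy' => ?_⟩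
      · rw [Set.Finite.mem_toFinset]
        change ĝ (σ x) ∈ C
        rw [hĝ' ⟨σ x, (hB'm _).2 (hσ1 x hx)⟩]
        exact (g _).2
      · rw [Finset.mem_insert] at hy'
        rcases hy' with rfl | hy'
        · refine ⟨i0, fun x hx hτ => ?_⟩
          obtain ⟨τ, hτ⟩ := hτ
          -- the embedding of `A'` onto `σ x`
          have h1 : ∀ e : A', (σ.comp τ) (e : M) ∈ B' := fun e => by
            have h2 : (e : M) = y' := (hA'm _).1 e.2
            rw [h2, hB'm]
            change σ (τ y') ∈ C1
            rw [hτ]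
            exact hσ1 x hx
          let e : A' ↪[L'] B' := ((σ.comp τ).toEmbedding.comp (Substructure.subtype A')).codRestrict B' h1
          have h3 := hg e
          have h4 : ((g.comp e) ⟨y', hyA⟩ : M) = ĝ (σ x) := by
            have h5 : (e ⟨y', hyA⟩ : M) = σ x := by
              change σ (τ y') = σ x
              rw [hτ]
            have h6 := hĝ' (e ⟨y', hyA⟩)
            rw [h5] at h6
            exact h6.symm
          change c (ĝ (σ x)) = i0
          rw [← h4]
          exact h3
        · exact hσ2 y' hy'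
  obtain ⟨C, hC⟩ := key F B
  obtain ⟨σ, -, hσ⟩ := hC c
  -- `σ` as an automorphism of the reduct
  let σ' : M ≃[L] M :=
    { σ.toEquiv with
      map_fun' := fun {n} f x => by
        have h1 := hφ.map_onFunction f x
        have h2 := hφ.map_onFunction f (σ ∘ x)
        change σ (Structure.funMap f x) = Structure.funMap f (σ ∘ x)
        rw [← h1, ← h2]
        exact σ.map_fun (φ.onFunction f) x
      map_rel' := fun {n} R x => by
        have h1 := hφ.map_onRelation R x
        have h2 := hφ.map_onRelation R (σ ∘ x)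
        change Structure.RelMap R (σ ∘ x) ↔ Structure.RelMap R x
        rw [← h1, ← h2]
        exact σ.map_rel (φ.onRelation R) x }
  refine ⟨σ', ?_⟩
  change (B.image fun x => c (σ x)).card ≤ F.card
  rcases B.eq_empty_or_nonempty with rfl | hne
  · simp
  · choose y hy1 hy2 using hF
    have : Nonempty (Fin k) := ⟨c hne.choose⟩
    choose! i hi using hσ
    have h1 : (B.image fun x => c (σ x)) ⊆ F.image i := by
      intro s hs
      rw [Finset.mem_image] at hs
      obtain ⟨x, hx, rfl⟩ := hs
      rw [Finset.mem_image]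
      exact ⟨y x, hy1 x, (hi _ (hy1 x) x hx (hy2 x)).symm⟩
    exact (Finset.card_le_card h1).trans Finset.card_image_le

end Pool.Agent.Lib.PRX
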